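import Pool.Agent.H98.MQ.QPF
import Pool.Agent.H98.MR.RVA

/-! # [H98 MQ QVA] The value of the function on the homogenised curves

`Aw`: the coefficients `A_μ ∏ w_v^(D_v - a_v - b_v)`. With `T` for the homogenised curve and `ω T` for the curve:
`w^(D - a - b) evz T (uu q e x' D a b) = evz (ω T) (uu q e x D a b)`, `x' = x(ω T)`. -/

namespace Pool.Agent.H98.MQ

open Finset Polynomial Pool.Agent.H72.ES Pool.Agent.H87.SA2 Pool.Agent.H8.AW Pool.Agent.H52.AC
  Pool.Agent.H97.NW Pool.Agent.H97.TR Pool.Agent.H98.MR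

variable {m n κ c : ℕ}

/-- the coefficients on the homogenised curves -/
def Aw (P : Fin m → Ptr n) (D N : Fin m → ℕ) (A : Mq P N → ℤ) : Mo (fun v => hom (P v)) N → ℤ :=
  fun μ => A μ * ∏ v, ((P v).w : ℤ) ^ (D v - ((μ v).1 : ℕ) - ((μ v).2 : ℕ))

private theorem uu_resc (q e w : ℕ) (ω : ℂ) (hω : ω ^ e = w) (x : PowerSeries ℂ) (D a b : ℕ) :
    PowerSeries.rescale ω (uu q e x D a b) =
      PowerSeries.C ((w : ℂ) ^ (D - a - b)) * uu q e (PowerSeries.rescale ω x) D a b := by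
  unfold uu
  have h3 : PowerSeries.rescale ω (PowerSeries.C (q : ℂ)) = PowerSeries.C (q : ℂ) := by
    ext k
    rw [PowerSeries.coeff_rescale, PowerSeries.coeff_C]
    split_ifs with hk
    · rw [hk, pow_zero, one_mul]
    · rw [mul_zero]
  rw [map_mul, map_pow, map_pow, map_pow, map_mul, h3, PowerSeries.rescale_X, map_pow, ← hω, map_pow]
  ring

private theorem evz_resc (T ω : ℂ) (f : PowerSeries ℂ) :
    H52.AC.evz T (PowerSeries.rescale ω f) = H52.AC.evz (ω * T) f := by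
  unfold H52.AC.evz
  refine tsum_congr fun k => ?_
  rw [PowerSeries.coeff_rescale, mul_pow]
  ring

private theorem evz_Cm (T a : ℂ) (f : PowerSeries ℂ) :
    H52.AC.evz T (PowerSeries.C a * f) = a * H52.AC.evz T f := by
  unfold H52.AC.evz
  rw [← tsum_mul_left]
  refine tsum_congr fun k => ?_
  rw [PowerSeries.coeff_C_mul, mul_assoc]

/-- the homogenised curve has relaxed bounds, without a threshold -/
theorem rc_hom {P : Ptr n} {ρ : ℝ} (h : Rcr κ c P ρ) (hc : cR n ≤ c) :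
    Rc (κ + (2 * n * n + n + 1)) 0 (hom P) (ρ * om P) := by
  have hl := lc_hom h hc
  have hx1 := h.x1
  have ho := om_one P
  have hρ := h.ρ2
  have hx : ((hom P).x : ℝ) = (P.x : ℝ) := rfl
  refine ⟨hl.ρ2, ?_, ?_, ?_, ?_, h.evy0⟩
  · rw [pow_zero, hx]
    exact hx1
  · rw [hom_q]
    have h1 := h.q_le
    nlinarith
  · intro i k
    refine (hl.gr i k).trans ?_
    have h0 : 0 ≤ ρ * om P := mul_nonneg (by linarith) (by linarith)
    rw [hx]
    exact mul_le_mul_of_nonneg_right (pow_le_pow_right₀ hx1 (by omega)) (pow_nonneg h0 k)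
  · rw [hx]
    have h1 : ((hom P).b : ℝ) = (P.b : ℝ) * (P.w : ℝ) ^ (2 * n * n + n + 1) := by
      show ((hb P : ℕ) : ℝ) = _
      unfold hb
      push_cast
      rfl
    rw [h1, pow_add _ κ]
    have h2 := h.b_le
    have h3 := h.w_le
    gcongr

theorem val_q (P : Fin m → Ptr n) (ρ : Fin m → ℝ) (hP : ∀ v, Rcr κ c (P v) (ρ v)) (hc : cR n ≤ c)
    (D N : Fin m → ℕ) (hDN : ∀ v, N v + (P v).d ≤ D v + 1) (A : Mq P N → ℤ) (T ξ : Fin m → ℂ)
    (hT : ∀ v, ((((P v).C.pd.q : ℕ) : ℂ) * T v) ^ (P v).C.pd.e * ξ v = 1)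
    (hR : ∀ v, ρ v * om (P v) * ‖T v‖ < 1) :
    ∑ μ : Mo (fun v => hom (P v)) N, (Aw P D N A μ : ℂ) * ∏ v, (ξ v ^ ((μ v).1 : ℕ) *
        (ξ v * H52.AC.evz (T v) ((hom (P v)).C.pd.x (hom (P v)).i)) ^ ((μ v).2 : ℕ)) =
      (∏ v, ξ v ^ D v) * ∑ μ : Mq P N, (A μ : ℂ) * ∏ v, H52.AC.evz (((om (P v) : ℝ) : ℂ) * T v)
        (uu (P v).C.pd.q (P v).C.pd.e ((P v).C.pd.x (P v).i) (D v) (μ v).1 (μ v).2) := by
  have h1 := val_r (fun v => hom (P v)) (fun v => ρ v * om (P v)) (fun v => rc_hom (hP v) hc) D N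
    hDN (Aw P D N A) T ξ (by
      intro v
      rw [hom_q, hom_e]
      exact hT v) hR
  rw [h1]
  congr 1
  refine Finset.sum_congr rfl fun μ _ => ?_
  unfold Aw
  push_cast
  rw [mul_assoc, ← Finset.prod_mul_distrib]
  congr 1
  refine Finset.prod_congr rfl fun v _ => ?_
  have h2 : (hom (P v)).C.pd.x (hom (P v)).i =
      PowerSeries.rescale ((om (P v) : ℝ) : ℂ) ((P v).C.pd.x (P v).i) := hom_x (P v) (P v).i
  rw [h2, hom_q, hom_e, ← evz_resc, uu_resc _ _ _ _ (omC_pow (P v)), evz_Cm]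

end Pool.Agent.H98.MQ
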