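import Pool.Agent.H98.MQ.QMG
import Pool.Agent.H98.MQ.QVA
import Pool.Agent.H98.MR.RNZ

/-! # [H98 MQ QDT] The determinant of multiplication on the curves and on the homogenised curves

`scX w`: the substitution `X_v ↦ w_v X_v`. `sc_cmp`: `cmp'^b(i, j)(w X) w^j = w^(i+b) cmq^b(i, j)(X)`. So
`scX (MG' i j) ∏ w^(j_v) = ∏ w^(i_v) ∏ w^(D_v) (MGq i j)` and `scX (det MG') = (∏ w^(D_v))^s det MGq`. -/

namespace Pool.Agent.H98.MQ

open Finset Polynomial Pool.Agent.H72.ES Pool.Agent.H87.SA2 Pool.Agent.H8.AW Pool.Agent.H52.AC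
  Pool.Agent.H97.NW Pool.Agent.H97.TR Pool.Agent.H98.MR H4AR

variable {m n : ℕ}

/-- the substitution `X_v ↦ w_v X_v` -/
noncomputable def scX {R : Type} [CommRing R] (w : Fin m → ℕ) :
    MvPolynomial (Fin m) R →ₐ[R] MvPolynomial (Fin m) R :=
  MvPolynomial.aeval fun v => MvPolynomial.C ((w v : ℕ) : R) * MvPolynomial.X v

theorem scX_C {R : Type} [CommRing R] (w : Fin m → ℕ) (a : R) :
    scX w (MvPolynomial.C a) = MvPolynomial.C a := by
  unfold scX
  rw [MvPolynomial.aeval_C]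
  rfl

theorem scX_X {R : Type} [CommRing R] (w : Fin m → ℕ) (v : Fin m) :
    scX w (MvPolynomial.X v : MvPolynomial (Fin m) R) =
      MvPolynomial.C ((w v : ℕ) : R) * MvPolynomial.X v := by
  unfold scX
  rw [MvPolynomial.aeval_X]

theorem coeff_scX {R : Type} [CommRing R] (w : Fin m → ℕ) (f : MvPolynomial (Fin m) R)
    (e : Fin m →₀ ℕ) : (scX w f).coeff e = (∏ v, ((w v : ℕ) : R) ^ e v) * f.coeff e := by
  classical
  induction f using MvPolynomial.induction_on' with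
  | monomial u a =>
    have h1 : scX w (MvPolynomial.monomial u a) =
        MvPolynomial.monomial u ((∏ v, ((w v : ℕ) : R) ^ u v) * a) := by
      rw [MvPolynomial.monomial_eq, map_mul, scX_C, Finsupp.prod_fintype _ _ (fun _ => pow_zero _),
        map_prod]
      have h2 : ∀ v, scX w ((MvPolynomial.X v : MvPolynomial (Fin m) R) ^ u v) =
          MvPolynomial.C (((w v : ℕ) : R) ^ u v) * MvPolynomial.X v ^ u v := by
        intro v
        rw [map_pow, scX_X, mul_pow, map_pow]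
      rw [Finset.prod_congr rfl fun v _ => h2 v, Finset.prod_mul_distrib, ← map_prod,
        MvPolynomial.monomial_eq, Finsupp.prod_fintype _ _ (fun _ => pow_zero _), map_mul]
      ring
    rw [h1, MvPolynomial.coeff_monomial, MvPolynomial.coeff_monomial]
    split_ifs with h3
    · rw [h3]
    · rw [mul_zero]
  | add p q hp hq =>
    rw [map_add, MvPolynomial.coeff_add, MvPolynomial.coeff_add, hp, hq, mul_add]

theorem scX_map {R S : Type} [CommRing R] [CommRing S] (φ : R →+* S) (w : Fin m → ℕ)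
    (f : MvPolynomial (Fin m) R) :
    MvPolynomial.map φ (scX w f) = scX w (MvPolynomial.map φ f) := by
  ext e
  rw [MvPolynomial.coeff_map, coeff_scX, coeff_scX, MvPolynomial.coeff_map, map_mul, map_prod]
  congr 1
  refine Finset.prod_congr rfl fun v _ => ?_
  rw [map_pow, map_natCast]

theorem sh_scX (w : Fin m → ℕ) (hw : ∀ v, 1 ≤ w v) (x : Fin m → ℤ) (f : MvPolynomial (Fin m) ℚ) :
    sh (fun v => ((x v : ℤ) : ℚ) / (w v : ℚ)) (scX w f) = scX w (sh (fun v => ((x v : ℤ) : ℚ)) f) := by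
  have h1 : ((sh (fun v => ((x v : ℤ) : ℚ) / (w v : ℚ))).comp (scX w)) =
      ((scX w).comp (sh (fun v => ((x v : ℤ) : ℚ)))) := by
    apply MvPolynomial.algHom_ext
    intro v
    rw [AlgHom.comp_apply, AlgHom.comp_apply, scX_X, map_mul, sh_C, sh_X, sh_X, map_add, scX_X, scX_C,
      mul_add, ← map_mul]
    congr 2
    have := hw v
    have h2 : (w v : ℚ) ≠ 0 := by exact_mod_cast (by omega : w v ≠ 0)
    field_simp
  exact AlgHom.congr_fun h1 f

private theorem sc_cmp1 (P : Ptr n) (i j : Fin P.d) :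
    (((hom P).cmp i j).comp (C (P.w : ℤ) * X)) * C ((P.w : ℤ) ^ (j : ℕ)) =
      C ((P.w : ℤ) ^ ((i : ℕ) + 1)) * cmq P i j := by
  have hcm : (hom P).cmp i j = if (i : ℕ) + 1 < P.d then (if (j : ℕ) = i + 1 then 1 else 0)
      else - ∑ k ∈ range (P.d + 1 - j), Polynomial.C (P.F k j * (P.w : ℤ) ^ (P.d - k - j)) * X ^ k := rfl
  rw [hcm]
  unfold cmq
  by_cases hi : (i : ℕ) + 1 < P.d
  · rw [if_pos hi, if_pos hi]
    by_cases hj : (j : ℕ) = i + 1
    · rw [if_pos hj, one_comp, hj, one_mul, mul_one]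
    · rw [if_neg hj, zero_comp, zero_mul, mul_zero]
  · rw [if_neg hi, if_neg hi, neg_comp, neg_mul, mul_neg, Polynomial.sum_comp, Finset.sum_mul,
      Finset.mul_sum]
    congr 1
    refine Finset.sum_congr rfl fun k hk => ?_
    rw [mem_range] at hk
    have hid : (i : ℕ) + 1 = P.d := by
      have := i.2
      omega
    rw [mul_comp, C_comp, pow_comp, X_comp, mul_pow, hid]
    have h1 : (P.w : ℤ) ^ P.d = (P.w : ℤ) ^ (P.d - k - (j : ℕ)) * (P.w : ℤ) ^ k * (P.w : ℤ) ^ (j : ℕ) := by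
      rw [← pow_add, ← pow_add]
      congr 1
      have := j.2
      omega
    rw [h1]
    simp only [map_mul, map_pow]
    ring

private theorem sc_cmp (P : Ptr n) (b : ℕ) (i j : Fin P.d) :
    ((((hom P).cmp ^ b) i j).comp (C (P.w : ℤ) * X)) * C ((P.w : ℤ) ^ (j : ℕ)) =
      C ((P.w : ℤ) ^ ((i : ℕ) + b)) * (cmq P ^ b) i j := by
  induction b generalizing i j with
  | zero =>
    rw [pow_zero, pow_zero, Nat.add_zero]
    by_cases hj : i = j
    · rw [hj]
      have h1 : (1 : Matrix (Fin (hom P).d) (Fin (hom P).d) ℤ[X]) j j = 1 := Matrix.one_apply_eq j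
      have h2 : (1 : Matrix (Fin P.d) (Fin P.d) ℤ[X]) j j = 1 := Matrix.one_apply_eq j
      rw [h1, h2, one_comp, one_mul, mul_one]
    · have h1 : (1 : Matrix (Fin (hom P).d) (Fin (hom P).d) ℤ[X]) i j = 0 := Matrix.one_apply_ne hj
      have h2 : (1 : Matrix (Fin P.d) (Fin P.d) ℤ[X]) i j = 0 := Matrix.one_apply_ne hj
      rw [h1, h2, zero_comp, zero_mul, mul_zero]
  | succ b ih =>
    have h1 : ((hom P).cmp ^ (b + 1)) i j = ∑ l : Fin P.d, ((hom P).cmp ^ b) i l * (hom P).cmp l j := by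
      rw [pow_succ, Matrix.mul_apply]
      rfl
    have h2 : (cmq P ^ (b + 1)) i j = ∑ l : Fin P.d, (cmq P ^ b) i l * cmq P l j := by
      rw [pow_succ, Matrix.mul_apply]
    rw [h1, h2, Polynomial.sum_comp, Finset.sum_mul, Finset.mul_sum]
    refine Finset.sum_congr rfl fun l _ => ?_
    have h3 := sc_cmp1 P l j
    have h4 := ih i l
    rw [mul_comp, mul_assoc, h3]
    have h5 : C ((P.w : ℤ) ^ ((l : ℕ) + 1)) = C ((P.w : ℤ) ^ (l : ℕ)) * C (P.w : ℤ) := by
      rw [pow_succ, map_mul]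
    have h6 : C ((P.w : ℤ) ^ ((i : ℕ) + (b + 1))) = C ((P.w : ℤ) ^ ((i : ℕ) + b)) * C (P.w : ℤ) := by
      rw [← Nat.add_assoc, pow_succ, map_mul]
    rw [h5, h6]
    linear_combination (C (P.w : ℤ) * cmq P l j) * h4

private theorem scX_aeval (w : Fin m → ℕ) (v : Fin m) (q : ℤ[X]) :
    scX w (Polynomial.aeval (MvPolynomial.X v : MvPolynomial (Fin m) ℤ) q) =
      Polynomial.aeval (MvPolynomial.X v : MvPolynomial (Fin m) ℤ) (q.comp (C ((w v : ℕ) : ℤ) * X)) := by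
  rw [← Polynomial.aeval_algHom_apply, scX_X, Polynomial.aeval_comp, map_mul, Polynomial.aeval_X,
    Polynomial.aeval_C]
  rfl

/-- the matrices of the curves and of the homogenised curves -/
theorem sc_MG (P : Fin m → Ptr n) (D N : Fin m → ℕ) (hDN : ∀ v, N v + (P v).d ≤ D v + 1)
    (A : Mq P N → ℤ) (i j : ∀ v, Fin (P v).d) :
    scX (fun v => (P v).w) (MG (fun v => hom (P v)) N (Aw P D N A) i j) *
        MvPolynomial.C (∏ v, ((P v).w : ℤ) ^ (j v : ℕ)) =
      MvPolynomial.C (∏ v, ((P v).w : ℤ) ^ (i v : ℕ)) *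
        (MvPolynomial.C (∏ v, ((P v).w : ℤ) ^ D v) * MGq P N A i j) := by
  have h1 : MG (fun v => hom (P v)) N (Aw P D N A) i j = ∑ μ : Mq P N, MvPolynomial.C (Aw P D N A μ) *
      ∏ v, (MvPolynomial.X v ^ ((μ v).1 : ℕ) *
      Polynomial.aeval (MvPolynomial.X v : MvPolynomial (Fin m) ℤ)
      (((hom (P v)).cmp ^ ((μ v).2 : ℕ)) (i v) (j v))) := rfl
  rw [h1, map_sum, Finset.sum_mul]
  unfold MGq
  rw [Finset.mul_sum, Finset.mul_sum]
  refine Finset.sum_congr rfl fun μ _ => ?_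
  rw [map_mul, scX_C, map_prod]
  have h2 : Aw P D N A μ = A μ * ∏ v, ((P v).w : ℤ) ^ (D v - ((μ v).1 : ℕ) - ((μ v).2 : ℕ)) := rfl
  rw [h2, map_mul (MvPolynomial.C : ℤ →+* MvPolynomial (Fin m) ℤ), map_prod (MvPolynomial.C : ℤ →+* MvPolynomial (Fin m) ℤ), map_prod (MvPolynomial.C : ℤ →+* MvPolynomial (Fin m) ℤ), map_prod (MvPolynomial.C : ℤ →+* MvPolynomial (Fin m) ℤ), map_prod (MvPolynomial.C : ℤ →+* MvPolynomial (Fin m) ℤ)]
  have h3 : ∀ v, scX (fun v => (P v).w) (MvPolynomial.X v ^ ((μ v).1 : ℕ) *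
      Polynomial.aeval (MvPolynomial.X v : MvPolynomial (Fin m) ℤ)
      (((hom (P v)).cmp ^ ((μ v).2 : ℕ)) (i v) (j v))) *
      (MvPolynomial.C (((P v).w : ℤ) ^ (D v - ((μ v).1 : ℕ) - ((μ v).2 : ℕ))) *
        MvPolynomial.C (((P v).w : ℤ) ^ (j v : ℕ))) =
      MvPolynomial.C (((P v).w : ℤ) ^ (i v : ℕ)) * MvPolynomial.C (((P v).w : ℤ) ^ D v) *
      (MvPolynomial.X v ^ ((μ v).1 : ℕ) * Polynomial.aeval (MvPolynomial.X v : MvPolynomial (Fin m) ℤ)
      ((cmq (P v) ^ ((μ v).2 : ℕ)) (i v) (j v))) := by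
    intro v
    rw [map_mul, map_pow, scX_X, scX_aeval]
    have h4 := congrArg (Polynomial.aeval (MvPolynomial.X v : MvPolynomial (Fin m) ℤ))
      (sc_cmp (P v) ((μ v).2 : ℕ) (i v) (j v))
    rw [map_mul, map_mul, Polynomial.aeval_C, Polynomial.aeval_C] at h4
    have h5 : ∀ z : ℤ, algebraMap ℤ (MvPolynomial (Fin m) ℤ) z = MvPolynomial.C z := fun z => rfl
    rw [h5, h5] at h4
    have ha := (μ v).1.2
    have hb := (μ v).2.2
    have hD := hDN v
    have h6 : (((P v).w : ℤ)) ^ D v = ((P v).w : ℤ) ^ (D v - ((μ v).1 : ℕ) - ((μ v).2 : ℕ)) *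
        (((P v).w : ℤ) ^ ((μ v).1 : ℕ) * ((P v).w : ℤ) ^ ((μ v).2 : ℕ)) := by
      rw [← pow_add, ← pow_add]
      congr 1
      omega
    rw [h6, mul_pow]
    rw [pow_add] at h4
    simp only [map_mul, map_pow] at h4 ⊢
    have h7 : ((((P v).w : ℕ) : ℤ) : ℤ) = ((P v).w : ℤ) := rfl
    linear_combination ((MvPolynomial.C ((P v).w : ℤ) : MvPolynomial (Fin m) ℤ) ^ ((μ v).1 : ℕ) *
      MvPolynomial.X v ^ ((μ v).1 : ℕ) *
      MvPolynomial.C ((P v).w : ℤ) ^ (D v - ((μ v).1 : ℕ) - ((μ v).2 : ℕ))) * h4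
  have h8 := Finset.prod_congr rfl fun v (_ : v ∈ (Finset.univ : Finset (Fin m))) => h3 v
  rw [Finset.prod_mul_distrib, Finset.prod_mul_distrib, Finset.prod_mul_distrib,
    Finset.prod_mul_distrib] at h8
  linear_combination (MvPolynomial.C (A μ) : MvPolynomial (Fin m) ℤ) * h8

theorem sc_det (P : Fin m → Ptr n) (D N : Fin m → ℕ) (hDN : ∀ v, N v + (P v).d ≤ D v + 1)
    (A : Mq P N → ℤ) :
    scX (fun v => (P v).w) (MG (fun v => hom (P v)) N (Aw P D N A)).det =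
      MvPolynomial.C ((∏ v, ((P v).w : ℤ) ^ D v) ^ Fintype.card (∀ v, Fin (P v).d)) *
        (MGq P N A).det := by
  classical
  obtain ⟨M1, hM1⟩ : ∃ M1 : Matrix (∀ v, Fin (P v).d) (∀ v, Fin (P v).d) (MvPolynomial (Fin m) ℤ),
      M1 = fun i j => scX (fun v => (P v).w) (MG (fun v => hom (P v)) N (Aw P D N A) i j) := ⟨_, rfl⟩
  obtain ⟨c, hc⟩ : ∃ c : (∀ v, Fin (P v).d) → MvPolynomial (Fin m) ℤ,
      c = fun i => MvPolynomial.C (∏ v, ((P v).w : ℤ) ^ (i v : ℕ)) := ⟨_, rfl⟩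
  obtain ⟨W, hW⟩ : ∃ W : MvPolynomial (Fin m) ℤ, W = MvPolynomial.C (∏ v, ((P v).w : ℤ) ^ D v) :=
    ⟨_, rfl⟩
  have h1 : M1 * Matrix.diagonal c = Matrix.diagonal c * (W • MGq P N A) := by
    apply Matrix.ext
    intro i j
    rw [Matrix.mul_diagonal, Matrix.diagonal_mul, Matrix.smul_apply, smul_eq_mul, hM1, hc, hW]
    exact sc_MG P D N hDN A i j
  have h2 : scX (fun v => (P v).w) (MG (fun v => hom (P v)) N (Aw P D N A)).det = M1.det := by
    have h3 := AlgHom.map_det (scX (R := ℤ) (fun v => (P v).w)) (MG (fun v => hom (P v)) N (Aw P D N A))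
    rw [h3, hM1]
    rfl
  have h4 := congrArg Matrix.det h1
  rw [Matrix.det_mul, Matrix.det_mul, Matrix.det_diagonal, Matrix.det_smul] at h4
  have h5 : ∏ i, c i ≠ 0 := by
    refine Finset.prod_ne_zero_iff.2 fun i _ => ?_
    rw [hc]
    simp only [ne_eq]
    rw [MvPolynomial.C_eq_zero]
    refine Finset.prod_ne_zero_iff.2 fun v _ => pow_ne_zero _ ?_
    have := (P v).w1
    exact_mod_cast (by omega : (P v).w ≠ 0)
  rw [h2, map_pow, ← hW]
  apply mul_right_cancel₀ h5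
  rw [h4]
  ring

theorem det_ne_q (P : Fin m → Ptr n) (hκ : ∀ v, (hom (P v)).kap ≠ 0) (D N : Fin m → ℕ)
    (hDN : ∀ v, N v + (P v).d ≤ D v + 1) (A : Mq P N → ℤ) (hA : A ≠ 0) : (MGq P N A).det ≠ 0 := by
  have hw : ∀ v, ((P v).w : ℤ) ≠ 0 := by
    intro v
    have := (P v).w1
    exact_mod_cast (by omega : (P v).w ≠ 0)
  intro h0
  have h1 := sc_det P D N hDN A
  rw [h0, mul_zero] at h1
  have hA' : Aw P D N A ≠ 0 := by
    intro h2
    apply hA
    funext μ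
    have h3 := congrFun h2 μ
    have h4 : Aw P D N A μ = A μ * ∏ v, ((P v).w : ℤ) ^ (D v - ((μ v).1 : ℕ) - ((μ v).2 : ℕ)) := rfl
    rw [h4] at h3
    rcases mul_eq_zero.1 h3 with h5 | h5
    · exact h5
    · exact absurd h5 (Finset.prod_ne_zero_iff.2 fun v _ => pow_ne_zero _ (hw v))
  apply det_ne_r (fun v => hom (P v)) hκ N (Aw P D N A) hA'
  ext e
  have h2 := congrArg (MvPolynomial.coeff e) h1
  rw [coeff_scX, MvPolynomial.coeff_zero] at h2
  rw [MvPolynomial.coeff_zero]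
  rcases mul_eq_zero.1 h2 with h3 | h3
  · exact absurd h3 (Finset.prod_ne_zero_iff.2 fun v _ => pow_ne_zero _ (hw v))
  · exact h3

theorem det_idx_q (P : Fin m → Ptr n) (hκ : ∀ v, (hom (P v)).kap ≠ 0) (D N : Fin m → ℕ)
    (hDN : ∀ v, N v + (P v).d ≤ D v + 1) (A : Mq P N → ℤ) {θ : ℝ} (hh0 : ∀ v, 0 ≤ (P v).hh)
    (h : ∀ K : Fin m → ℕ, ∑ v, (P v).hh * (K v : ℝ) < θ →
      Lm (fun v => hom (P v)) N (Aw P D N A) K = 0) (e : Fin m →₀ ℕ)
    (he : ∑ v, (P v).hh * (e v : ℝ) < θ) :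
    (sh (fun v => (((P v).x : ℤ) : ℚ) / ((P v).w : ℚ)) (toQ (MGq P N A).det)).coeff e = 0 := by
  have hw : ∀ v, ((P v).w : ℤ) ≠ 0 := by
    intro v
    have := (P v).w1
    exact_mod_cast (by omega : (P v).w ≠ 0)
  have h1 := det_idx_r (fun v => hom (P v)) hκ N (Aw P D N A) (θ := θ) hh0 h e he
  have h2 := congrArg (MvPolynomial.map (Int.castRingHom ℚ)) (sc_det P D N hDN A)
  rw [scX_map, map_mul, MvPolynomial.map_C] at h2
  have h3 := congrArg (sh (fun v => (((P v).x : ℤ) : ℚ) / ((P v).w : ℚ))) h2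
  rw [sh_scX (fun v => (P v).w) (fun v => (P v).w1) (fun v => (P v).x), map_mul, sh_C] at h3
  have h4 := congrArg (MvPolynomial.coeff e) h3
  rw [coeff_scX, MvPolynomial.coeff_C_mul] at h4
  have h5 : (sh (fun v => (((P v).x : ℤ) : ℚ)) (MvPolynomial.map (Int.castRingHom ℚ)
      (MG (fun v => hom (P v)) N (Aw P D N A)).det)).coeff e = 0 := by
    have h6 := sh_map (Int.castRingHom ℚ) (fun v => (P v).x)
      (MG (fun v => hom (P v)) N (Aw P D N A)).det
    have h7 : (fun j => (((P j).x : ℤ) : ℚ)) = fun j => (Int.castRingHom ℚ) ((P j).x) := by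
      funext j
      simp
    rw [h7, h6, MvPolynomial.coeff_map]
    have h8 : (sh (fun v => (P v).x) (MG (fun v => hom (P v)) N (Aw P D N A)).det).coeff e = 0 := h1
    rw [h8, map_zero]
  rw [h5, mul_zero] at h4
  unfold toQ
  rcases mul_eq_zero.1 h4.symm with h6 | h6
  · exfalso
    rw [map_pow] at h6
    have h7 := eq_zero_of_pow_eq_zero h6
    rw [eq_intCast, Int.cast_eq_zero] at h7
    exact absurd h7 (Finset.prod_ne_zero_iff.2 fun v _ => pow_ne_zero _ (hw v))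
  · exact h6

end Pool.Agent.H98.MQ
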