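import Pool.Agent.H98.MQ.QZE
import Pool.Agent.H98.MQ.QLO

/-! # [H98 MQ QZF] The local coefficients of small weight vanish

Copy of `Pool/Agent/H98/MR/RZF.lean`. -/

namespace Pool.Agent.H98.MQ

open Finset Polynomial Pool.Agent.H72.ES Pool.Agent.H87.SA2 Pool.Agent.H8.AW Pool.Agent.H52.AC
  Pool.Agent.H97.NW Pool.Agent.H97.TR Pool.Agent.H98.MR

theorem zero_q (m n κ : ℕ) (hm : 1 ≤ m) (hn : 1 ≤ n) (η : ℝ) (hη : 0 < η) (hη1 : η ≤ 1)
    (ϱ : Fin m → ℝ) (hϱ1 : ∀ v, ϱ v ≤ 1) (r0 : ℝ) (hr0 : 0 < r0) (hrϱ : ∀ v, r0 ≤ ϱ v) :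
    ∃ (c : ℕ) (K1 : ℝ), cR n ≤ c ∧ 1 ≤ K1 ∧ ∀ (P : Fin m → Ptr n) (ρ : Fin m → ℝ),
      (∀ v, Rcr κ c (P v) (ρ v)) → (∀ v, ϱ v * (P v).hh ≤ (P v).ell) → ∀ Y : ℝ,
      (∀ v, K1 * (P v).hh ≤ Y) → (∀ v, 1 ≤ Nq P Y v) → ∀ A : Mq P (Nq P Y) → ℤ,
      (∀ μ, |(A μ : ℝ)| ≤ Real.exp (η / 8 * Y)) →
      (∀ k : Fin m → ℕ, ∑ v, ϱ v * (P v).hh * ((k v / (P v).C.pd.e : ℕ) : ℝ) < (m + η) * Y →
        Bq P (Dq P Y) (Nq P Y) A (fun v => (P v).i) k = 0) →
      ∀ K : Fin m → ℕ, ∑ v, (P v).hh * (K v : ℝ) < η / (5 * Ew κ n) * Y →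
        Lm (fun v => hom (P v)) (Nq P Y) (Aw P (Dq P Y) (Nq P Y) A) K = 0 := by
  obtain ⟨c, K1, hcA, hK1, hsm⟩ := small_q m n κ hm hn η hη hη1 ϱ hϱ1 r0 hr0 hrϱ
  refine ⟨c, K1, hcA, hK1, ?_⟩
  intro P ρ hP hϱh Y hY hN A hA hvan K hK
  have hE1 : (1 : ℝ) ≤ Ew κ n := by
    have h1 : 1 ≤ Ew κ n := by
      unfold Ew
      omega
    exact_mod_cast h1
  have hE0 : (0 : ℝ) < Ew κ n := by linarith
  have hc1 : 1 ≤ c := by
    unfold cR at hcA
    omega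
  have hc1R : (1 : ℝ) ≤ c := by exact_mod_cast hc1
  have hl2 : 0 < Real.log 2 := Real.log_pos (by norm_num)
  have hell1 : ∀ v, Real.log 2 ≤ (P v).hh := by
    intro v
    have h1 := (hP v).ell_ge.2
    have h2 := (hP v).ell_le
    nlinarith
  have hell0 : ∀ v, 0 < (P v).hh := fun v => hl2.trans_le (hell1 v)
  have hYl : ∀ v, (P v).hh ≤ Y := fun v =>
    (le_mul_of_one_le_left (hell0 v).le hK1).trans (hY v)
  have hY0 : 0 < Y := by
    have v0 : Fin m := ⟨0, by omega⟩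
    exact (hell0 v0).trans_le (hYl v0)
  have hx0 : ∀ v, (P v).x ≠ 0 := fun v => (hP v).x_ne
  have hX0 : ∀ v, (0 : ℝ) < |((P v).x : ℝ)| := fun v => by
    rw [abs_pos]
    exact_mod_cast hx0 v
  have hexp : ∀ v, Real.exp (P v).hh = |((P v).x : ℝ)| := fun v => Real.exp_log (hX0 v)
  have hX2 : ∀ v, (2 : ℝ) ≤ |((P v).x : ℝ)| := by
    intro v
    rw [← hexp v]
    calc (2 : ℝ) = Real.exp (Real.log 2) := (Real.exp_log (by norm_num)).symm
      _ ≤ Real.exp (P v).hh := Real.exp_le_exp.mpr (hell1 v)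
  have hkap := fun v => kap_hom (hP v) hcA
  have hk0 : ∀ v, (0 : ℝ) < |((hom (P v)).kap : ℝ)| := fun v => by
    rw [abs_pos]
    exact_mod_cast (hkap v).1
  have hloc := loc_m_q (fun v => hom (P v)) (fun v => |((P v).x : ℝ)| ^ κ) (fun v => ρ v * om (P v))
    (fun v => lc_hom (hP v) hcA) (Nq P Y) (Aw P (Dq P Y) (Nq P Y) A) (M := Real.exp (-(η / 2) * Y))
    (fun v => |((P v).x : ℝ)| / (2 * |((hom (P v)).kap : ℝ)|))
    (fun v => div_pos (hX0 v) (by have := hk0 v; positivity))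
    (fun v => by
      have := (hk0 v).ne'
      have hx : ((hom (P v)).x : ℝ) = ((P v).x : ℝ) := rfl
      rw [hx]
      apply le_of_eq
      field_simp)
    (fun T ξ hT hξ => hsm P ρ hP hϱh Y hY hN A hA hvan T ξ (fun v => by
      have h1 := hT v
      rw [hom_q, hom_e] at h1
      exact h1) hξ) K
  have hρ : Real.exp (-(2 / 5 * η) * Y) ≤
      ∏ v, (|((P v).x : ℝ)| / (2 * |((hom (P v)).kap : ℝ)|)) ^ K v := by
    calc Real.exp (-(2 / 5 * η) * Y) ≤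
          Real.exp (∑ v, -(2 * (Ew κ n : ℝ) * ((P v).hh * (K v : ℝ)))) := by
          apply Real.exp_le_exp.mpr
          have h1 : ∑ v, -(2 * (Ew κ n : ℝ) * ((P v).hh * (K v : ℝ))) =
              -(2 * (Ew κ n : ℝ) * ∑ v, (P v).hh * (K v : ℝ)) := by
            rw [sum_neg_distrib, mul_sum]
          rw [h1]
          have h2 : 2 * (Ew κ n : ℝ) * (η / (5 * (Ew κ n : ℝ)) * Y) = 2 / 5 * η * Y := by
            field_simp
          have h3 : 2 * (Ew κ n : ℝ) * ∑ v, (P v).hh * (K v : ℝ) ≤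
              2 * (Ew κ n : ℝ) * (η / (5 * (Ew κ n : ℝ)) * Y) :=
            mul_le_mul_of_nonneg_left hK.le (by positivity)
          rw [h2] at h3
          linarith
      _ = ∏ v, Real.exp (-(2 * (Ew κ n : ℝ) * ((P v).hh * (K v : ℝ)))) := Real.exp_sum _ _
      _ ≤ _ := by
          refine prod_le_prod (fun v _ => (Real.exp_pos _).le) fun v _ => ?_
          have h1 : Real.exp (-(2 * (Ew κ n : ℝ) * ((P v).hh * (K v : ℝ)))) =
              (Real.exp (-((2 * Ew κ n : ℕ) * (P v).hh))) ^ K v := by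
            rw [← Real.exp_nat_mul]
            congr 1
            push_cast
            ring
          rw [h1]
          apply pow_le_pow_left₀ (Real.exp_pos _).le
          rw [Real.exp_neg, Real.exp_nat_mul, hexp v, le_div_iff₀ (by have := hk0 v; positivity)]
          have h2 : 0 < |((P v).x : ℝ)| ^ (2 * Ew κ n) := pow_pos (hX0 v) _
          rw [inv_mul_le_iff₀ h2]
          have h3 := (hkap v).2
          have h4 := hX2 v
          nlinarith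
  have hlt : |((Lm (fun v => hom (P v)) (Nq P Y) (Aw P (Dq P Y) (Nq P Y) A) K : ℤ) : ℝ)| < 1 := by
    have hpos : 0 < ∏ v, (|((P v).x : ℝ)| / (2 * |((hom (P v)).kap : ℝ)|)) ^ K v :=
      (Real.exp_pos _).trans_le hρ
    have h1 : |((Lm (fun v => hom (P v)) (Nq P Y) (Aw P (Dq P Y) (Nq P Y) A) K : ℤ) : ℝ)| * Real.exp (-(2 / 5 * η) * Y) ≤
        Real.exp (-(η / 2) * Y) :=
      (mul_le_mul_of_nonneg_left hρ (abs_nonneg _)).trans hloc
    by_contra hcon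
    push Not at hcon
    have h2 : Real.exp (-(2 / 5 * η) * Y) ≤ Real.exp (-(η / 2) * Y) := by
      refine le_trans ?_ h1
      exact le_mul_of_one_le_left (Real.exp_pos _).le hcon
    have h3 := Real.exp_le_exp.mp h2
    nlinarith [mul_pos hη hY0]
  have hlt2 : |Lm (fun v => hom (P v)) (Nq P Y) (Aw P (Dq P Y) (Nq P Y) A) K| < 1 := by exact_mod_cast hlt
  exact Int.abs_lt_one_iff.mp hlt2

end Pool.Agent.H98.MQ
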