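import Pool.Agent.H97.TR.Defs
import Pool.Agent.H98.MR.Defs

/-!
# MP_821da1_nt, THEOREM W: the machine for rational points: definitions (helper98)

`Mq`, `Bq`, `Vq`: as `Mo`, `Bm`, `Vm` (`Pool/Agent/H97/NW/Defs.lean`) for curves with rational points (nothing about the point).
`Dq, Nq`: the degrees `D_v = ⌊Y / h_v⌋`, `N_v = D_v + 1 - d_v`, `h_v = hh = log |x_v|`.
`om P`: the positive real number with `om ^ e = w`.
-/

namespace Pool.Agent.H98.MQ

open Finset Polynomial Pool.Agent.H72.ES Pool.Agent.H87.SA2 Pool.Agent.H8.AW Pool.Agent.H52.AC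
  Pool.Agent.H97.NW Pool.Agent.H97.TR Pool.Agent.H98.MR

variable {m n : ℕ}

/-- the set of monomials -/
abbrev Mq (P : Fin m → Ptr n) (N : Fin m → ℕ) : Type := ∀ v, Fin (N v) × Fin (P v).d

/-- the coefficient of `∏ T_v^(k_v)` of the function `A` at the tuple `p` of branches -/
noncomputable def Bq (P : Fin m → Ptr n) (D N : Fin m → ℕ) (A : Mq P N → ℤ)
    (p : ∀ v, Fin (P v).d) (k : Fin m → ℕ) : ℂ :=
  ∑ μ : Mq P N, (A μ : ℂ) * ∏ v, PowerSeries.coeff (k v)
    (uu (P v).C.pd.q (P v).C.pd.e ((P v).C.pd.x (p v)) (D v) (μ v).1 (μ v).2)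

/-- the sum of the coefficients over the cell `K` -/
noncomputable def Vq (P : Fin m → Ptr n) (D N : Fin m → ℕ) (A : Mq P N → ℤ)
    (p : ∀ v, Fin (P v).d) (K : Fin m → ℕ) : ℂ :=
  ∑ r : (∀ v, Fin (P v).C.pd.e), Bq P D N A p fun v => (P v).C.pd.e * K v + (r v : ℕ)

/-- the degrees -/
noncomputable def Dq (P : Fin m → Ptr n) (Y : ℝ) (v : Fin m) : ℕ := ⌊Y / (P v).hh⌋₊

/-- the number of powers of `x_v` -/
noncomputable def Nq (P : Fin m → Ptr n) (Y : ℝ) (v : Fin m) : ℕ := Dq P Y v + 1 - (P v).d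

/-- the positive real number with `om ^ e = w` -/
noncomputable def om (P : Ptr n) : ℝ := (P.w : ℝ) ^ ((1 : ℝ) / P.C.pd.e)

end Pool.Agent.H98.MQ
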