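import Pool.Agent.H98.MQ.Defs
import Pool.Agent.H98.MR.RBA

/-! # [H98 MQ QBA] Basic facts for relaxed curves with rational points

As `Pool/Agent/H98/MR/RBA.lean`; `ell = log (|x| / w)`, `hh = log |x|`, `1 ≤ w`. -/

namespace Pool.Agent.H97.TR

open Finset Polynomial Pool.Agent.H72.ES Pool.Agent.H87.SA2 Pool.Agent.H8.AW Pool.Agent.H52.AC
  Pool.Agent.H97.NW Pool.Agent.H98.MR Pool.Agent.H98.MQ

variable {n κ c : ℕ} {P : Ptr n} {ρ : ℝ}

theorem Ptr.w1R (P : Ptr n) : (1 : ℝ) ≤ P.w := by exact_mod_cast P.w1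

theorem Rcr.mono {c' : ℕ} (h : Rcr κ c P ρ) (hc : c' ≤ c) : Rcr κ c' P ρ :=
  ⟨h.ρ2, (pow_le_pow_right₀ (by linarith [h.ρ2]) hc).trans h.thr, h.q_le, h.gr, h.b_le, h.evy0⟩

theorem Rcr.xw1 (h : Rcr κ c P ρ) : 1 ≤ |(P.x : ℝ)| / P.w :=
  (one_le_pow₀ (by linarith [h.ρ2])).trans h.thr

theorem Rcr.xw2 (h : Rcr κ c P ρ) : (2 : ℝ) ^ c ≤ |(P.x : ℝ)| / P.w :=
  (pow_le_pow_left₀ (by norm_num) h.ρ2 c).trans h.thr

theorem Rcr.w_le (h : Rcr κ c P ρ) : (P.w : ℝ) ≤ |(P.x : ℝ)| := by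
  have h1 := h.xw1
  have h2 := P.w1R
  rwa [le_div_iff₀ (by linarith), one_mul] at h1

theorem Rcr.x1 (h : Rcr κ c P ρ) : 1 ≤ |(P.x : ℝ)| := P.w1R.trans h.w_le

theorem Rcr.x_ne (h : Rcr κ c P ρ) : P.x ≠ 0 := by
  intro h0
  have h1 := h.x1
  rw [h0, Int.cast_zero, abs_zero] at h1
  linarith

theorem Rcr.ell_ge (h : Rcr κ c P ρ) : (c : ℝ) * Real.log ρ ≤ P.ell ∧ (c : ℝ) * Real.log 2 ≤ P.ell := by
  have h0 : (0 : ℝ) < ρ := by linarith [h.ρ2]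
  constructor
  · rw [← Real.log_pow]
    exact Real.log_le_log (by positivity) h.thr
  · rw [← Real.log_pow]
    exact Real.log_le_log (by positivity) h.xw2

theorem Rcr.ell_le (h : Rcr κ c P ρ) : P.ell ≤ P.hh := by
  have h1 := P.w1R
  have h2 := h.xw1
  unfold Ptr.ell Ptr.hh
  refine Real.log_le_log (by linarith) ?_
  exact div_le_self (abs_nonneg _) h1

theorem Rcr.log_w (h : Rcr κ c P ρ) : Real.log P.w ≤ P.hh :=
  Real.log_le_log (by linarith [P.w1R]) h.w_le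

theorem Rcr.log_b (h : Rcr κ c P ρ) : Real.log P.b ≤ κ * P.hh := by
  have hb : 2 ≤ P.b := P.C.b2
  have hb' : (0 : ℝ) < P.b := by
    have : (2 : ℝ) ≤ P.b := by exact_mod_cast hb
    linarith
  unfold Ptr.hh
  rw [← Real.log_pow]
  exact Real.log_le_log hb' h.b_le

theorem Rcr.log_U (h : Rcr κ c P ρ) (hc : 1 ≤ c) : Real.log (2 * |(P.x : ℝ)| ^ κ) ≤ (κ + 1) * P.hh := by
  have h1 := h.x1
  have h2 : Real.log 2 ≤ P.hh := by
    have h3 := h.ell_ge.2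
    have h4 : (1 : ℝ) ≤ c := by exact_mod_cast hc
    have h5 : 0 ≤ Real.log 2 := Real.log_nonneg (by norm_num)
    have h6 := h.ell_le
    nlinarith
  rw [Real.log_mul (by norm_num) (by positivity), Real.log_pow]
  have h6 : Real.log |(P.x : ℝ)| = P.hh := rfl
  rw [h6]
  linarith

end Pool.Agent.H97.TR
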