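import Pool.Agent.H98.MQ.Defs
import Pool.Agent.H97.NW.CNT

/-! # [H98 MQ QCN] The number of conditions is smaller than the number of unknowns

Copy of `Pool/Agent/H97/NW/CNB.lean`, with the degrees `⌊Y / h_v⌋` and the cells of `ϱ_v h_v`. -/

namespace Pool.Agent.H98.MQ

open Finset Polynomial Pool.Agent.H72.ES Pool.Agent.H87.SA2 Pool.Agent.H8.AW Pool.Agent.H52.AC
  Pool.Agent.H97.NW Pool.Agent.H97.TR Pool.Agent.H98.MR

variable {m n : ℕ}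

private theorem cnb_delta (m n : ℕ) (hm : 1 ≤ m) (γ : ℝ) (hγ : 0 < γ) : ∃ δ : ℝ, 0 < δ ∧ δ < 1 / (n + 2) ∧
    (1 + δ) * ((m : ℝ) + δ + m * δ) ^ m ≤ (1 + γ) * ((1 - n * δ) ^ m * (m : ℝ) ^ m) := by
  have hmr : (0 : ℝ) < m := by exact_mod_cast hm
  have hc : ContinuousAt (fun δ : ℝ => (1 + γ) * ((1 - n * δ) ^ m * (m : ℝ) ^ m) -
      (1 + δ) * ((m : ℝ) + δ + m * δ) ^ m) 0 := by
    apply Continuous.continuousAt
    fun_prop
  have h0 : (0 : ℝ) < (fun δ : ℝ => (1 + γ) * ((1 - n * δ) ^ m * (m : ℝ) ^ m) -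
      (1 + δ) * ((m : ℝ) + δ + m * δ) ^ m) 0 := by
    have h1 : (fun δ : ℝ => (1 + γ) * ((1 - n * δ) ^ m * (m : ℝ) ^ m) -
      (1 + δ) * ((m : ℝ) + δ + m * δ) ^ m) 0 = γ * (m : ℝ) ^ m := by
      simp only [mul_zero, sub_zero, one_pow, add_zero, one_mul]
      ring
    rw [h1]
    positivity
  have h2 := hc.eventually (lt_mem_nhds h0)
  have h3 : ∀ᶠ δ : ℝ in nhdsWithin 0 (Set.Ioi 0), 0 < (1 + γ) * ((1 - n * δ) ^ m * (m : ℝ) ^ m) -
      (1 + δ) * ((m : ℝ) + δ + m * δ) ^ m := h2.filter_mono nhdsWithin_le_nhds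
  have h4 : ∀ᶠ δ : ℝ in nhdsWithin 0 (Set.Ioi 0), δ ∈ Set.Ioo (0 : ℝ) (1 / (n + 2)) :=
    Ioo_mem_nhdsGT (by positivity)
  obtain ⟨δ, hδ, hδ'⟩ := (h3.and h4).exists
  exact ⟨δ, hδ'.1, hδ'.2, by linarith⟩

theorem count_q (m n : ℕ) (hm : 1 ≤ m) (γ : ℝ) (hγ : 0 < γ) : ∃ (η K0 : ℝ) (r : ℕ),
    0 < η ∧ η ≤ 1 ∧ 1 ≤ K0 ∧ 1 ≤ r ∧ ∀ (ϱ : Fin m → ℝ), (∀ v, 0 < ϱ v) → (∀ v, ϱ v ≤ 1) →
      ∀ (P : Fin m → Ptr n) (c : ℕ),
      (1 + γ) * ((m : ℝ) ^ m * c) ≤ (m.factorial : ℝ) * ∏ v, (ϱ v * ((P v).d : ℝ)) →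
      (∀ v, 0 < (P v).hh) → ∀ Y : ℝ, (∀ v, K0 * (P v).hh ≤ Y) →
      (∀ v, 1 ≤ Nq P Y v) ∧ (r + 1) * (c * (cells (fun v => ϱ v * (P v).hh) ((m + η) * Y)).card) ≤
        r * ∏ v, (Nq P Y v * (P v).d) := by
  obtain ⟨δ, hδ, hδn, hδm⟩ := cnb_delta m n hm γ hγ
  have hmr : (0 : ℝ) < m := by exact_mod_cast hm
  have hn0 : (0 : ℝ) ≤ n := Nat.cast_nonneg n
  have hδ2 : δ * (n + 2) < 1 := by rwa [lt_div_iff₀ (by positivity)] at hδn
  have hδ1 : δ ≤ 1 := by nlinarith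
  obtain ⟨r, hr⟩ := exists_nat_ge (1 / δ)
  have hrδ : 1 ≤ (r : ℝ) * δ := by rwa [div_le_iff₀ hδ] at hr
  have hr1 : 1 ≤ r := by
    rcases Nat.eq_zero_or_pos r with h | h
    · rw [h] at hrδ
      norm_num at hrδ
    · exact h
  have hK0 : 1 ≤ 1 / δ := by rw [le_div_iff₀ hδ]; linarith
  refine ⟨δ, 1 / δ, r, hδ, hδ1, hK0, hr1, ?_⟩
  intro ϱ hϱ hϱ1 P c hc hell Y hY
  have hell' : ∀ v, (P v).hh ≤ δ * Y := by
    intro v
    have h1 := hY v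
    have h2 : δ * (1 / δ * (P v).hh) ≤ δ * Y := mul_le_mul_of_nonneg_left h1 hδ.le
    rwa [← mul_assoc, mul_one_div_cancel hδ.ne', one_mul] at h2
  have hY0 : 0 < Y := by
    have h1 := hell ⟨0, hm⟩
    have h2 := hell' ⟨0, hm⟩
    by_contra h
    push Not at h
    nlinarith
  -- the degrees
  have hq : ∀ v, (n : ℝ) + 2 ≤ Y / (P v).hh := by
    intro v
    rw [le_div_iff₀ (hell v)]
    have h1 := hell' v
    nlinarith [hell v]
  have hDf : ∀ v, Y / (P v).hh - 1 < (Dq P Y v : ℝ) := by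
    intro v
    have := Nat.lt_floor_add_one (Y / (P v).hh)
    unfold Dq
    linarith
  have hdn : ∀ v, ((P v).d : ℝ) ≤ n := fun v => by exact_mod_cast (P v).C.dn
  have hdD : ∀ v, (P v).d + 1 ≤ Dq P Y v + 1 := by
    intro v
    have h1 : ((n + 1 : ℕ) : ℝ) < ((Dq P Y v + 1 : ℕ) : ℝ) := by
      push_cast
      linarith [hq v, hDf v]
    have h2 : n + 1 < Dq P Y v + 1 := by exact_mod_cast h1
    have h3 := (P v).C.dn
    omega
  have hNf1 : ∀ v, 1 ≤ Nq P Y v := by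
    intro v
    have := hdD v
    unfold Nq
    omega
  refine ⟨hNf1, ?_⟩
  have hNf : ∀ v, Y / (P v).hh * (1 - n * δ) ≤ (Nq P Y v : ℝ) := by
    intro v
    have h1 : (Nq P Y v : ℝ) = (Dq P Y v : ℝ) + 1 - (P v).d := by
      have h2 := hdD v
      unfold Nq
      rw [Nat.cast_sub (by omega)]
      push_cast
      ring
    have h3 : (n : ℝ) ≤ Y / (P v).hh * (n * δ) := by
      have h4 : 1 ≤ Y / (P v).hh * δ := by
        rw [div_mul_eq_mul_div, le_div_iff₀ (hell v)]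
        linarith [hell' v]
      nlinarith
    rw [h1]
    have h5 := hDf v
    have h6 := hdn v
    linarith
  have h1nd : 0 ≤ 1 - (n : ℝ) * δ := by nlinarith
  set L : ℝ := ∏ v, (P v).hh with hL
  have hL0 : 0 < L := Finset.prod_pos fun v _ => hell v
  have hprodN : Y ^ m * (1 - n * δ) ^ m ≤ (∏ v, (Nq P Y v : ℝ)) * L := by
    have h1 : ∏ v : Fin m, (Y / (P v).hh * (1 - n * δ)) ≤ ∏ v, (Nq P Y v : ℝ) :=
      Finset.prod_le_prod (fun v _ => mul_nonneg (div_nonneg hY0.le (hell v).le) h1nd) fun v _ => hNf v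
    have h2 : ∏ v : Fin m, (Y / (P v).hh * (1 - n * δ)) = Y ^ m * (1 - n * δ) ^ m / L := by
      rw [Finset.prod_mul_distrib, Finset.prod_div_distrib, Finset.prod_const, Finset.prod_const,
        Finset.card_univ, Fintype.card_fin]
      ring
    rw [h2, div_le_iff₀ hL0] at h1
    exact h1
  have hcells := cells_card m (fun v => ϱ v * (P v).hh)
    (fun v => mul_pos (hϱ v) (hell v)) ((m + δ) * Y) (by positivity)
  set CC : ℝ := ((cells (fun v => ϱ v * (P v).hh) ((m + δ) * Y)).card : ℝ) with hCC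
  set RR : ℝ := ∏ v, ϱ v with hRR
  have hRR0 : 0 < RR := Finset.prod_pos fun v _ => hϱ v
  have hcells2 : CC * ((m.factorial : ℝ) * (RR * L)) ≤ Y ^ m * ((m : ℝ) + δ + m * δ) ^ m := by
    rw [hRR, hL, ← Finset.prod_mul_distrib]
    refine hcells.trans ?_
    rw [← mul_pow]
    apply pow_le_pow_left₀
    · have : 0 ≤ ∑ v, ϱ v * (P v).hh := Finset.sum_nonneg fun v _ => (mul_pos (hϱ v) (hell v)).le
      positivity
    · have h1 : ∑ v, ϱ v * (P v).hh ≤ m * (δ * Y) := by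
        calc ∑ v, ϱ v * (P v).hh ≤ ∑ _v : Fin m, δ * Y := Finset.sum_le_sum fun v _ =>
              (mul_le_of_le_one_left (hell v).le (hϱ1 v)).trans (hell' v)
          _ = m * (δ * Y) := by rw [Finset.sum_const, Finset.card_univ, Fintype.card_fin, nsmul_eq_mul]
      linarith
  have hC0 : 0 ≤ CC := Nat.cast_nonneg _
  have hfac : (0 : ℝ) < m.factorial := by exact_mod_cast m.factorial_pos
  have hdd : 0 ≤ ∏ v, ((P v).d : ℝ) := Finset.prod_nonneg fun v _ => Nat.cast_nonneg _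
  rw [Finset.prod_mul_distrib, ← hRR] at hc
  -- the main inequality
  have hmain : (1 + δ) * (c * CC) ≤ (∏ v, (Nq P Y v : ℝ)) * ∏ v, ((P v).d : ℝ) := by
    have hpos : 0 < (1 + γ) * (m : ℝ) ^ m * (m.factorial : ℝ) * (RR * L) := by positivity
    refine le_of_mul_le_mul_left ?_ hpos
    calc (1 + γ) * (m : ℝ) ^ m * (m.factorial : ℝ) * (RR * L) * ((1 + δ) * (c * CC))
        = ((1 + γ) * ((m : ℝ) ^ m * c)) * ((1 + δ) * (CC * ((m.factorial : ℝ) * (RR * L)))) := by ring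
      _ ≤ ((m.factorial : ℝ) * (RR * ∏ v, ((P v).d : ℝ))) * ((1 + δ) * (Y ^ m * ((m : ℝ) + δ + m * δ) ^ m)) := by
          gcongr
      _ = ((m.factorial : ℝ) * (RR * ∏ v, ((P v).d : ℝ))) * Y ^ m * ((1 + δ) * ((m : ℝ) + δ + m * δ) ^ m) := by ring
      _ ≤ ((m.factorial : ℝ) * (RR * ∏ v, ((P v).d : ℝ))) * Y ^ m *
            ((1 + γ) * ((1 - n * δ) ^ m * (m : ℝ) ^ m)) := by gcongr
      _ = ((m.factorial : ℝ) * (RR * ∏ v, ((P v).d : ℝ))) * (1 + γ) * (m : ℝ) ^ m *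
            (Y ^ m * (1 - n * δ) ^ m) := by ring
      _ ≤ ((m.factorial : ℝ) * (RR * ∏ v, ((P v).d : ℝ))) * (1 + γ) * (m : ℝ) ^ m *
            ((∏ v, (Nq P Y v : ℝ)) * L) := by gcongr
      _ = _ := by ring
  have hcc0 : 0 ≤ (c : ℝ) * CC := by positivity
  have hfin : ((r + 1 : ℕ) : ℝ) * (c * CC) ≤ (r : ℝ) * ((∏ v, (Nq P Y v : ℝ)) * ∏ v, ((P v).d : ℝ)) := by
    push_cast
    calc ((r : ℝ) + 1) * (c * CC) ≤ ((r : ℝ) + r * δ) * (c * CC) := by gcongr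
      _ = r * ((1 + δ) * (c * CC)) := by ring
      _ ≤ _ := by gcongr
  rw [← Finset.prod_mul_distrib] at hfin
  have hfin' : (((r + 1) * (c * (cells (fun v => ϱ v * (P v).hh) ((m + δ) * Y)).card) : ℕ) : ℝ) ≤
      ((r * ∏ v, (Nq P Y v * (P v).d) : ℕ) : ℝ) := by
    push_cast
    push_cast at hfin
    exact hfin
  exact_mod_cast hfin'

end Pool.Agent.H98.MQ
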