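import Pool.Agent.H98.MQ.Defs
import Pool.Agent.H97.NW.CEL

/-! # [H98 MQ QCE] Small cell sums vanish, curves with rational points

Copy of `EQV`, `ROT`, `CEL` (`Pool/Agent/H97/NW`) with `Ptr` instead of `Ptd`. -/

namespace Pool.Agent.H98.MQ

open Finset Polynomial Pool.Agent.H72.ES Pool.Agent.H87.SA2 Pool.Agent.H8.AW Pool.Agent.H52.AC
  Pool.Agent.H97.NW Pool.Agent.H97.TR Pool.Agent.H98.MR

variable {m n : ℕ}

/-- the cell sum over a ring -/
private noncomputable def VqS {S : Type*} [CommRing S] (P : Fin m → Ptr n) (D N : Fin m → ℕ) (A : Mq P N → ℤ)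
    (η : Fin m → PowerSeries S) (K : Fin m → ℕ) : S :=
  ∑ r : (∀ v, Fin (P v).C.pd.e), ∑ μ : Mq P N, (A μ : S) * ∏ v, PowerSeries.coeff ((P v).C.pd.e * K v + (r v : ℕ))
    (uuS_UI (P v).C.pd.q (P v).C.pd.e (η v) (D v) (μ v).1 (μ v).2)

private theorem VqS_map {S S' : Type*} [CommRing S] [CommRing S'] (φ : S →+* S') (P : Fin m → Ptr n) (D N : Fin m → ℕ)
    (A : Mq P N → ℤ) (η : Fin m → PowerSeries S) (K : Fin m → ℕ) :
    φ (VqS P D N A η K) = VqS P D N A (fun v => PowerSeries.map φ (η v)) K := by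
  unfold VqS
  rw [map_sum]
  refine sum_congr rfl fun r _ => ?_
  rw [map_sum]
  refine sum_congr rfl fun μ _ => ?_
  rw [map_mul, map_intCast, map_prod]
  congr 1
  refine prod_congr rfl fun v _ => ?_
  rw [← PowerSeries.coeff_map, uuS_map_UI]

private theorem Vq_eq (P : Fin m → Ptr n) (D N : Fin m → ℕ) (A : Mq P N → ℤ) (p : ∀ v, Fin (P v).d) (K : Fin m → ℕ) :
    Vq P D N A p K = VqS P D N A (fun v => (P v).C.pd.x (p v)) K := rfl

theorem Vq_int (P : Fin m → Ptr n) (D N : Fin m → ℕ) (A : Mq P N → ℤ)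
    (p : ∀ v, Fin (P v).d) (K : Fin m → ℕ) : IsIntegral ℤ (Vq P D N A p K) := by
  have h : Vq P D N A p K = algebraMap (integralClosure ℤ ℂ) ℂ
      (VqS P D N A (fun v => intS_UI ((P v).C.pd.integral (p v))) K) := by
    rw [VqS_map, Vq_eq]
    congr 1
    funext v
    rw [intS_map_UI]
  rw [h]
  exact (VqS P D N A (fun v => intS_UI ((P v).C.pd.integral (p v))) K).2

theorem Vq_gal (P : Fin m → Ptr n) (D N : Fin m → ℕ) (A : Mq P N → ℤ) (σ : AA →+* ℂ)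
    (p p' : ∀ v, Fin (P v).d)
    (h : ∀ (v : Fin m) (k : ℕ) (a : AA), (a : ℂ) = PowerSeries.coeff k ((P v).C.pd.x (p v)) →
      σ a = PowerSeries.coeff k ((P v).C.pd.x (p' v))) (K : Fin m → ℕ) (z : AA)
    (hz : (z : ℂ) = Vq P D N A p K) : σ z = Vq P D N A p' K := by
  have h3 : Vq P D N A p K = algebraMap AA ℂ
      (VqS P D N A (fun v => algS_UI (coeff_mem (P v).C.pd (p v))) K) := by
    rw [VqS_map, Vq_eq]
    congr 1
    funext v
    rw [algS_map_UI]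
  have h4 : z = VqS P D N A (fun v => algS_UI (coeff_mem (P v).C.pd (p v))) K := Subtype.ext (hz.trans h3)
  rw [h4, VqS_map, Vq_eq]
  congr 1
  funext v
  rw [algS_gal_UI σ _ (h v)]

theorem exists_cq (P : Ptr n) : ∃ c : Fin P.d → Fin P.d, (∀ i, c (c i) = i) ∧
    ∀ i k, PowerSeries.coeff k (P.C.pd.x (c i)) =
      (starRingEnd ℂ) (PowerSeries.coeff k (P.C.pd.x i)) := by
  obtain ⟨σ, hσ⟩ : ∃ σ : AA →+* ℂ, ∀ a : AA, σ a = (starRingEnd ℂ) (a : ℂ) :=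
    ⟨(starRingEnd ℂ).comp (algebraMap AA ℂ), fun a => rfl⟩
  obtain ⟨π, hπ⟩ := perm_gal P.C.pd σ
  have h1 : ∀ i m, PowerSeries.coeff m (P.C.pd.x (π i)) =
      (starRingEnd ℂ) (PowerSeries.coeff m (P.C.pd.x i)) := by
    intro i m
    have h2 := hπ i m ⟨PowerSeries.coeff m (P.C.pd.x i), coeff_mem P.C.pd i m⟩ rfl
    rw [hσ] at h2
    exact h2.symm
  refine ⟨π, fun i => ?_, h1⟩
  apply P.C.pd.x_inj
  ext m
  rw [h1, h1, Complex.conj_conj]

theorem Vq_rot (P : Fin m → Ptr n) (D N : Fin m → ℕ) (A : Mq P N → ℤ) {ζ : Fin m → ℂ}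
    (hζ : ∀ v, ζ v ^ (P v).C.pd.e = 1) (p p' : ∀ v, Fin (P v).d)
    (h : ∀ v, PowerSeries.rescale (ζ v) ((P v).C.pd.x (p v)) = (P v).C.pd.x (p' v))
    (K : Fin m → ℕ) : Vq P D N A p' K =
      ∑ r : (∀ v, Fin (P v).C.pd.e), (∏ v, ζ v ^ (r v : ℕ)) *
        Bq P D N A p fun v => (P v).C.pd.e * K v + (r v : ℕ) := by
  unfold Vq
  refine Finset.sum_congr rfl fun r _ => ?_
  unfold Bq
  rw [Finset.mul_sum]
  refine Finset.sum_congr rfl fun μ _ => ?_
  have h1 : ∀ v, PowerSeries.coeff ((P v).C.pd.e * K v + (r v : ℕ))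
      (uu (P v).C.pd.q (P v).C.pd.e ((P v).C.pd.x (p' v)) (D v) (μ v).1 (μ v).2) =
      ζ v ^ (r v : ℕ) * PowerSeries.coeff ((P v).C.pd.e * K v + (r v : ℕ))
      (uu (P v).C.pd.q (P v).C.pd.e ((P v).C.pd.x (p v)) (D v) (μ v).1 (μ v).2) := by
    intro v
    rw [← h v, uu_rot (hζ v), pow_add, pow_mul, hζ v, one_pow, one_mul]
  rw [Finset.prod_congr rfl fun v _ => h1 v, Finset.prod_mul_distrib]
  ring

theorem cell_zero_q (P : Fin m → Ptr n) (PP : Finset (∀ v, Fin (P v).d)) (hst : StbR P PP)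
    (D N : Fin m → ℕ) (A : Mq P N → ℤ) (K : Fin m → ℕ)
    (h : ∀ p ∈ PP, ‖Vq P D N A p K‖ < 1) :
    ∀ p ∈ PP, ∀ r : (∀ v, Fin (P v).C.pd.e),
      Bq P D N A p (fun v => (P v).C.pd.e * K v + (r v : ℕ)) = 0 := by
  classical
  have hz : ∀ p : {p // p ∈ PP}, Vq P D N A p.1 K = 0 := by
    refine liou_zero (fun p : {p // p ∈ PP} => Vq P D N A p.1 K) ?_ ?_ ?_
    · intro p
      exact Vq_int P D N A p.1 K
    · intro σ p
      choose π hπ using fun v : Fin m => perm_gal (P v).C.pd σ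
      have hmem : (fun v => π v (p.1 v)) ∈ PP :=
        hst.1 σ p.1 p.2 (fun v => π v (p.1 v)) fun v k a ha => hπ v (p.1 v) k a ha
      exact ⟨⟨fun v => π v (p.1 v), hmem⟩, fun a ha =>
        Vq_gal P D N A σ p.1 (fun v => π v (p.1 v))
          (fun v k b hb => hπ v (p.1 v) k b hb) K a ha⟩
    · intro p
      exact h p.1 p.2
  intro p hp
  refine fourier_m m (fun v => (P v).C.pd.e) (fun v => (P v).C.pd.e_pos)
    (fun r => Bq P D N A p (fun v => (P v).C.pd.e * K v + (r v : ℕ))) ?_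
  intro ζ hζ
  choose ρ hρ using fun v : Fin m => perm_rot (P v).C.pd (hζ v)
  have hmem : (fun v => ρ v (p v)) ∈ PP :=
    hst.2 ζ hζ p hp (fun v => ρ v (p v)) fun v => hρ v (p v)
  have h0 := hz ⟨fun v => ρ v (p v), hmem⟩
  rw [Vq_rot P D N A hζ p (fun v => ρ v (p v)) (fun v => hρ v (p v)) K] at h0
  exact h0

end Pool.Agent.H98.MQ
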