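import Pool.Agent.H98.MQ.QAN
import Pool.Agent.H4.AR.Roth

/-! # [H98 MQ QFA] Separated scales, curves with rational points

Copy of `Pool/Agent/H98/MR/RFA.lean`: Roth's lemma at the points `x_v / w_v`, the height of `x / w` is at least `|x| / w`. -/

namespace Pool.Agent.H98.MQ

open Finset Polynomial Pool.Agent.H72.ES Pool.Agent.H87.SA2 Pool.Agent.H8.AW Pool.Agent.H52.AC
  Pool.Agent.H97.NW Pool.Agent.H97.TR Pool.Agent.H98.MR H4AR

/-- the height of a rational number -/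
private theorem ht_ge (x : ℤ) (w : ℕ) (hw : 1 ≤ w) :
    |(x : ℝ)| / w ≤ ht (((x : ℤ) : ℚ) / (w : ℚ)) := by
  have h1 : ∀ r : ℚ, |(r : ℝ)| ≤ ht r := by
    intro r
    have h2 : (r : ℝ) = (r.num : ℝ) / (r.den : ℝ) := by
      exact_mod_cast (Rat.num_div_den r).symm
    have h3 : (1 : ℝ) ≤ r.den := by exact_mod_cast r.pos
    rw [h2, abs_div, abs_of_pos (by linarith : (0 : ℝ) < r.den)]
    exact (div_le_self (abs_nonneg _) h3).trans (le_max_left _ _)
  have h2 := h1 (((x : ℤ) : ℚ) / (w : ℚ))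
  push_cast at h2
  have h3 : (0 : ℝ) < w := by exact_mod_cast hw
  rwa [abs_div, abs_of_pos h3] at h2

theorem far_q (m n κ : ℕ) (hm : 1 ≤ m) (hn : 4 ≤ n) (γ : ℝ) (hγ : 0 < γ) (ϱ : Fin m → ℝ)
    (hϱ : ∀ v, 0 < ϱ v) (hϱ1 : ∀ v, ϱ v ≤ 1) : ∃ (R : ℝ) (c : ℕ), 1 ≤ R ∧
    ∀ (P : Fin m → Ptr n) (PP : Finset (∀ v, Fin (P v).d)), StbR P PP →
      (fun v => (P v).i) ∈ PP →
      (1 + γ) * ((m : ℝ) ^ m * PP.card) ≤ (m.factorial : ℝ) * ∏ v, (ϱ v * ((P v).d : ℝ)) →
      (∀ v, ϱ v * (P v).hh ≤ (P v).ell) → (∀ v, Rlr κ c (P v)) →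
      ¬ ∀ i j : Fin m, i < j → R * (P j).hh ≤ (P i).hh := by
  obtain ⟨vm, -, hvm⟩ := Finset.exists_min_image (Finset.univ : Finset (Fin m)) ϱ
    ⟨⟨0, hm⟩, Finset.mem_univ _⟩
  obtain ⟨r0, hr0d⟩ : ∃ r0 : ℝ, r0 = ϱ vm := ⟨_, rfl⟩
  have hr0 : 0 < r0 := by
    rw [hr0d]
    exact hϱ vm
  have hr01 : r0 ≤ 1 := by
    rw [hr0d]
    exact hϱ1 vm
  have hrϱ : ∀ v, r0 ≤ ϱ v := fun v => by
    rw [hr0d]
    exact hvm v (Finset.mem_univ v)
  obtain ⟨τ, hτ, haux⟩ := aux_norm_q m n κ hm hn γ hγ ϱ hϱ hϱ1 r0 hr0 hrϱ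
  set S : ℝ := (n : ℝ) ^ m with hS
  have hnR : (4 : ℝ) ≤ n := by exact_mod_cast hn
  have hS1 : 1 ≤ S := one_le_pow₀ (by linarith)
  have hS0 : 0 < S := by linarith
  obtain ⟨cr, hcr0, hcr1, hroth⟩ := H4AR.roth m (τ / (4 * S)) (by positivity)
  obtain ⟨c1, K0, hc1, hK0, hN⟩ := haux (cr * r0 * S / 2) (by positivity)
  refine ⟨max 1 (2 / cr), max c1 (⌈8 / (cr * r0)⌉₊), le_max_left _ _, ?_⟩
  intro P PP hStb hnear hcard hϱh hRlx hsep
  choose ρ hρ using hRlx
  set c : ℕ := max c1 (⌈8 / (cr * r0)⌉₊) with hc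
  have hcr00 : 0 < cr * r0 := mul_pos hcr0 hr0
  have hcc : 8 / (cr * r0) ≤ c := (Nat.le_ceil _).trans (by exact_mod_cast le_max_right _ _)
  have hc8 : 8 ≤ cr * r0 * c := by
    rw [div_le_iff₀ hcr00] at hcc
    linarith
  have hc0 : (0 : ℝ) < c := by
    by_contra hcon
    push Not at hcon
    nlinarith
  have hρ1 : ∀ v, Rcr κ c1 (P v) (ρ v) := fun v => (hρ v).mono (le_max_left _ _)
  have hl2 : 1 / 2 ≤ Real.log 2 := by
    have := Real.log_two_gt_d9
    linarith
  have hl20 : 0 < Real.log 2 := by linarith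
  have hell : ∀ v, (c : ℝ) * Real.log 2 ≤ (P v).hh := fun v =>
    (hρ v).ell_ge.2.trans (hρ v).ell_le
  have hell0 : ∀ v, 0 < (P v).hh := fun v => lt_of_lt_of_le (by positivity) (hell v)
  set v0 : Fin m := ⟨0, hm⟩ with hv0
  have hmax : ∀ v, (P v).hh ≤ (P v0).hh := by
    intro v
    rcases eq_or_ne v v0 with h | h
    · rw [h]
    · have h1 : v0 < v := by
        rw [Fin.lt_def]
        have h2 : v.val ≠ v0.val := fun h3 => h (Fin.ext h3)
        have h4 : v0.val = 0 := rfl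
        omega
      have h2 := hsep v0 v h1
      have h3 : (P v).hh ≤ max 1 (2 / cr) * (P v).hh :=
        le_mul_of_one_le_left (hell0 v).le (le_max_left _ _)
      exact h3.trans h2
  set Y : ℝ := K0 * (P v0).hh with hY
  have hY0 : 0 < Y := mul_pos (by linarith) (hell0 v0)
  have hYv : ∀ v, K0 * (P v).hh ≤ Y := fun v => mul_le_mul_of_nonneg_left (hmax v) (by linarith)
  have hYv1 : ∀ v, (P v).hh ≤ Y := fun v =>
    (le_mul_of_one_le_left (hell0 v).le hK0).trans (hYv v)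
  obtain ⟨N, hN0, hdeg, hlog, hvan⟩ := hN P PP hStb hnear hcard hϱh ρ hρ1 Y hYv
  set a : Fin m → ℝ := fun v => 2 * S * Y / (P v).hh with ha
  have ha2 : ∀ v, 2 ≤ a v := by
    intro v
    simp only [ha]
    rw [le_div_iff₀ (hell0 v)]
    have := hYv1 v
    nlinarith
  have ha0 : ∀ v, 0 < a v := fun v => by linarith [ha2 v]
  set d : Fin m → ℕ := fun v => ⌊a v⌋₊ with hd
  have hd1 : ∀ v, (d v : ℝ) ≤ a v := fun v => Nat.floor_le (ha0 v).le
  have hd2 : ∀ v, a v / 2 ≤ d v := by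
    intro v
    have h1 := Nat.lt_floor_add_one (a v)
    have h2 := ha2 v
    have h3 : a v < (d v : ℝ) + 1 := h1
    linarith
  have hd3 : ∀ v, 1 ≤ d v := by
    intro v
    have h1 := hd2 v
    have h2 := ha2 v
    exact_mod_cast (by linarith : (1 : ℝ) ≤ d v)
  set D : ℝ := 2 * S * Y / (c * Real.log 2) with hD
  have haD : ∀ v, a v ≤ D := fun v =>
    div_le_div_of_nonneg_left (by positivity) (by positivity) (hell v)
  have hD1 : 1 ≤ D := by
    have h1 := haD v0
    have h2 := ha2 v0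
    linarith
  -- heights
  have hht : ∀ j, r0 * (P j).hh ≤ Real.log (ht ((((P j).x : ℤ) : ℚ) / ((P j).w : ℚ))) := by
    intro j
    have h1 : (P j).ell ≤ Real.log (ht ((((P j).x : ℤ) : ℚ) / ((P j).w : ℚ))) := by
      unfold Ptr.ell
      refine Real.log_le_log ?_ (ht_ge (P j).x (P j).w (P j).w1)
      have := (hρ j).xw1
      linarith
    have h2 := hϱh j
    have h3 := mul_le_mul_of_nonneg_right (hrϱ j) (hell0 j).le
    linarith
  obtain ⟨e, he1, he2⟩ := hroth d (fun j => (((P j).x : ℤ) : ℚ) / ((P j).w : ℚ)) N D hD1 hd3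
    (fun j => (hd1 j).trans (haD j))
    (fun i j hij => by
      have h1 := hsep i j hij
      have h2 : a i ≤ cr / 2 * a j := by
        simp only [ha]
        rw [div_le_iff₀ (hell0 i)]
        have h3 : 2 / cr * (P j).hh ≤ (P i).hh :=
          (mul_le_mul_of_nonneg_right (le_max_right _ _) (hell0 j).le).trans h1
        have h4 : cr / 2 * (2 * S * Y / (P j).hh) * (2 / cr * (P j).hh) = 2 * S * Y := by
          have := (hell0 j).ne'
          field_simp
        have h5 : 0 ≤ cr / 2 * (2 * S * Y / (P j).hh) := by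
          have := hell0 j
          positivity
        calc 2 * S * Y = cr / 2 * (2 * S * Y / (P j).hh) * (2 / cr * (P j).hh) := h4.symm
          _ ≤ cr / 2 * (2 * S * Y / (P j).hh) * (P i).hh := mul_le_mul_of_nonneg_left h3 h5
      have h6 := hd1 i
      have h7 := mul_le_mul_of_nonneg_left (hd2 j) hcr0.le
      linarith)
    hN0
    (fun j => by
      apply Nat.le_floor
      simp only [ha]
      rw [le_div_iff₀ (hell0 j)]
      exact hdeg j)
    (fun j => by
      have h1 : S * Y ≤ (d j : ℝ) * (P j).hh := by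
        have h2 := mul_le_mul_of_nonneg_right (hd2 j) (hell0 j).le
        have h3 : a j / 2 * (P j).hh = S * Y := by
          simp only [ha]
          have := (hell0 j).ne'
          field_simp
        rwa [h3] at h2
      have h8 : (d j : ℝ) * (r0 * (P j).hh) ≤
          (d j : ℝ) * Real.log (ht ((((P j).x : ℤ) : ℚ) / ((P j).w : ℚ))) :=
        mul_le_mul_of_nonneg_left (hht j) (Nat.cast_nonneg _)
      have h9 : r0 * (S * Y) ≤ (d j : ℝ) * (r0 * (P j).hh) := by
        have := mul_le_mul_of_nonneg_left h1 hr0.le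
        linarith
      have h4 := mul_le_mul_of_nonneg_left (h9.trans h8) hcr0.le
      have h5 : D ≤ cr * r0 * S / 2 * Y := by
        rw [hD, div_le_iff₀ (by positivity)]
        have h6 : 4 ≤ cr * r0 * (c * Real.log 2) := by nlinarith
        have h7 : 0 ≤ S * Y := by positivity
        nlinarith
      linarith)
  -- contradiction
  apply he2
  apply hvan e
  have h1 : ∀ v, (P v).hh * (e v : ℝ) ≤ 2 * S * Y * ((e v : ℝ) / (d v : ℝ)) := by
    intro v
    have hdv : (0 : ℝ) < d v := by exact_mod_cast hd3 v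
    have h2 : (P v).hh * (d v : ℝ) ≤ 2 * S * Y := by
      have h3 := hd1 v
      simp only [ha] at h3
      rw [le_div_iff₀ (hell0 v)] at h3
      linarith
    rw [mul_div_assoc', le_div_iff₀ hdv]
    have h4 : (0 : ℝ) ≤ e v := Nat.cast_nonneg _
    nlinarith
  calc ∑ v, (P v).hh * (e v : ℝ) ≤ ∑ v, 2 * S * Y * ((e v : ℝ) / (d v : ℝ)) :=
        Finset.sum_le_sum fun v _ => h1 v
    _ = 2 * S * Y * wt d e := by rw [← Finset.mul_sum]; rfl
    _ ≤ 2 * S * Y * (τ / (4 * S)) := mul_le_mul_of_nonneg_left he1 (by positivity)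
    _ = τ * Y / 2 := by field_simp; ring
    _ < τ * Y := by
        have : 0 < τ * Y := mul_pos hτ hY0
        linarith

end Pool.Agent.H98.MQ
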