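import Pool.Agent.H98.MQ.QBA

/-! # [H98 MQ QHO] The homogenised curve `w^d F(X/w, Y/w)` with the integer point `(x, y)`

`hom P : Ptd n`: `q`, `e` as for the curve, the expansions `x_i(ω T)` with `ω^e = w`, the parameter `T / ω` of the point, all
constants at most `hb P = b w^(2 n n + n + 1)`. -/

namespace Pool.Agent.H98.MQ

open Finset Polynomial Pool.Agent.H72.ES Pool.Agent.H87.SA2 Pool.Agent.H8.AW Pool.Agent.H52.AC
  Pool.Agent.H97.NW Pool.Agent.H97.TR Pool.Agent.H98.MR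

variable {m n : ℕ}

theorem om_pos (P : Ptr n) : 0 < om P := by
  unfold om
  have := P.w1R
  positivity

theorem om_one (P : Ptr n) : 1 ≤ om P := by
  unfold om
  exact Real.one_le_rpow P.w1R (by positivity)

theorem om_pow (P : Ptr n) : om P ^ P.C.pd.e = P.w := by
  unfold om
  have h1 := P.C.pd.e_pos
  have h2 : (0 : ℝ) ≤ P.w := Nat.cast_nonneg _
  have h3 : (P.C.pd.e : ℝ) ≠ 0 := by
    have : P.C.pd.e ≠ 0 := by omega
    exact_mod_cast this
  rw [← Real.rpow_natCast, ← Real.rpow_mul h2, one_div, inv_mul_cancel₀ h3, Real.rpow_one]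

theorem om_le (P : Ptr n) : om P ≤ P.w := by
  rw [← om_pow P]
  exact le_self_pow₀ (om_one P) (by have := P.C.pd.e_pos; omega)

theorem omC_pow (P : Ptr n) : ((om P : ℝ) : ℂ) ^ P.C.pd.e = (P.w : ℂ) := by
  rw [← Complex.ofReal_pow, om_pow, Complex.ofReal_natCast]

theorem omC_ne (P : Ptr n) : ((om P : ℝ) : ℂ) ≠ 0 := by
  rw [Ne, Complex.ofReal_eq_zero]
  exact (om_pos P).ne'

theorem omC_int (P : Ptr n) : IsIntegral ℤ ((om P : ℝ) : ℂ) := by
  apply IsIntegral.of_pow (n := P.C.pd.e) (by have := P.C.pd.e_pos; omega)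
  rw [omC_pow]
  have h : ((P.w : ℕ) : ℂ) = algebraMap ℤ ℂ (P.w : ℤ) := by simp
  rw [h]
  exact isIntegral_algebraMap

/-- the substitution `t ↦ w t` -/
noncomputable def sct (w : ℕ) : ℤ[X][X] →+* ℤ[X][X] :=
  Polynomial.mapRingHom (Polynomial.compRingHom (C (w : ℤ) * X))

theorem sct_fI (d w : ℕ) (F : ℕ → ℕ → ℤ) : sct w (fI d F) = fI d (homF d w F) := by
  unfold sct fI homF
  rw [map_sum]
  refine Finset.sum_congr rfl fun j _ => ?_
  rw [map_mul, map_pow, coe_mapRingHom, map_X, map_C, map_sum]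
  congr 2
  refine Finset.sum_congr rfl fun i _ => ?_
  rw [map_mul, map_pow, coe_compRingHom_apply, coe_compRingHom_apply, C_comp, X_comp, mul_pow, map_mul, C_pow,
    mul_assoc]

private theorem tq_sct (e q w : ℕ) (ω : ℂ) (hω : ω ^ e = w) (f : ℤ[X][X]) :
    (sct w f).map (tq e q) = (f.map (tq e q)).map (PowerSeries.rescale ω) := by
  have h1 : (tq e q).comp (Polynomial.compRingHom (C (w : ℤ) * X)) =
      (PowerSeries.rescale ω).comp (tq e q) := by
    refine Polynomial.ringHom_ext' (RingHom.ext_int _ _) ?_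
    rw [RingHom.comp_apply, RingHom.comp_apply, coe_compRingHom_apply, X_comp, map_mul]
    unfold tq
    rw [coe_eval₂RingHom, eval₂_C, eval₂_X, map_pow, map_mul]
    have h2 : PowerSeries.rescale ω (PowerSeries.X : PowerSeries ℂ) =
        PowerSeries.C ω * PowerSeries.X := by
      rw [PowerSeries.rescale_X]
    have h3 : PowerSeries.rescale ω (PowerSeries.C (q : ℂ)) = PowerSeries.C (q : ℂ) := by
      ext k
      rw [PowerSeries.coeff_rescale, PowerSeries.coeff_C]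
      split_ifs with hk
      · rw [hk, pow_zero, one_mul]
      · rw [mul_zero]
    rw [h2, h3, mul_pow, mul_pow, mul_pow, ← map_pow PowerSeries.C ω, hω]
    simp only [eq_intCast, Int.cast_natCast, map_natCast]
    ring
  unfold sct
  rw [coe_mapRingHom, Polynomial.map_map, Polynomial.map_map, h1]

/-- Puiseux data rescaled by `ω` -/
noncomputable def rpd {f : ℤ[X][X]} {d : ℕ} (pd : PData f d) (w : ℕ) (ω : ℂ) (hw : 1 ≤ w)
    (hω : ω ^ pd.e = w) (hωi : IsIntegral ℤ ω) (hωn : ‖ω‖ ≤ w) (hω0 : ω ≠ 0) : PData (sct w f) d where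
  e := pd.e
  q := pd.q
  e_pos := pd.e_pos
  q_pos := pd.q_pos
  x := fun i => PowerSeries.rescale ω (pd.x i)
  x_inj := by
    intro i j hij
    apply pd.x_inj
    ext k
    have h1 := congrArg (PowerSeries.coeff k) hij
    simp only [PowerSeries.coeff_rescale] at h1
    exact mul_left_cancel₀ (pow_ne_zero k hω0) h1
  split := by
    rw [tq_sct _ _ _ _ hω, pd.split, Polynomial.map_prod]
    refine Finset.prod_congr rfl fun i _ => ?_
    rw [Polynomial.map_sub, Polynomial.map_X, Polynomial.map_C]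
  integral := by
    intro i k
    rw [PowerSeries.coeff_rescale]
    exact (hωi.pow k).mul (pd.integral i k)
  R := pd.R * w
  R_ge := by
    have h1 := pd.R_ge
    have h2 : (1 : ℝ) ≤ w := by exact_mod_cast hw
    nlinarith
  growth := by
    intro i k
    rw [PowerSeries.coeff_rescale, norm_mul, norm_pow, mul_pow]
    have h1 := pd.growth i k
    have h2 := pd.R_ge
    have h4 : (1 : ℝ) ≤ w := by exact_mod_cast hw
    have h3 : ‖ω‖ ^ k ≤ (w : ℝ) ^ (k + 1) := by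
      calc ‖ω‖ ^ k ≤ (w : ℝ) ^ k := pow_le_pow_left₀ (norm_nonneg _) hωn k
        _ ≤ (w : ℝ) ^ (k + 1) := pow_le_pow_right₀ h4 (by omega)
    rw [mul_comm (pd.R ^ (k + 1))]
    exact mul_le_mul h3 h1 (norm_nonneg _) (by positivity)

theorem exists_rpd {f : ℤ[X][X]} {d : ℕ} (pd : PData f d) (w : ℕ) (ω : ℂ) (hw : 1 ≤ w)
    (hω : ω ^ pd.e = w) (hωi : IsIntegral ℤ ω) (hωn : ‖ω‖ ≤ w) (hω0 : ω ≠ 0) :
    ∃ pd' : PData (sct w f) d, pd'.e = pd.e ∧ pd'.q = pd.q ∧ pd'.R = pd.R * w ∧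
    ∀ i, pd'.x i = PowerSeries.rescale ω (pd.x i) :=
  ⟨rpd pd w ω hw hω hωi hωn hω0, rfl, rfl, rfl, fun _ => rfl⟩

/-- the bound for the constants of the homogenised curve -/
def hb (P : Ptr n) : ℕ := P.b * P.w ^ (2 * n * n + n + 1)

private theorem qho_w (P : Ptr n) {k : ℕ} (hk : k ≤ 2 * n * n + n + 1) : P.b * P.w ^ k ≤ hb P :=
  Nat.mul_le_mul_left _ (Nat.pow_le_pow_right P.w1 hk)

private theorem qho_int {a : ℤ} {b w j k : ℕ} (ha : |a| ≤ (b : ℤ)) (hw : 1 ≤ w) (hjk : j ≤ k) :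
    |a * (w : ℤ) ^ j| ≤ ((b * w ^ k : ℕ) : ℤ) := by
  have h1 : (w : ℤ) ^ j ≤ (w : ℤ) ^ k := pow_le_pow_right₀ (by exact_mod_cast hw) hjk
  have h2 : (0 : ℤ) ≤ (w : ℤ) ^ j := by positivity
  rw [abs_mul, abs_of_nonneg h2]
  push_cast
  exact mul_le_mul ha h1 h2 (by positivity)

private theorem qho_FQ (σ : ℚ[X][X] →+* ℚ[X][X]) (w : ℕ) (hw : (w : ℚ) ≠ 0) (d : ℕ) (F : ℕ → ℕ → ℤ)
    (hσX : σ (C X) = C (C (w : ℚ)⁻¹ * X)) (hσC : ∀ a : ℚ, σ (C (C a)) = C (C a))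
    (hσY : σ X = C (C (w : ℚ)⁻¹) * X) :
    FQ d (homF d w F) = C (C ((w : ℚ) ^ d)) * σ (FQ d F) := by
  unfold FQ homF
  rw [map_sum, Finset.mul_sum]
  refine Finset.sum_congr rfl fun j hj => ?_
  rw [mem_range] at hj
  rw [map_mul σ, map_pow σ X, hσY, map_sum C, map_sum C, map_sum σ, Finset.sum_mul, Finset.sum_mul, Finset.mul_sum]
  refine Finset.sum_congr rfl fun i hi => ?_
  rw [mem_range] at hi
  rw [map_mul C, map_mul C, map_mul σ, map_pow C, map_pow C, map_pow σ, hσX, hσC]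
  have h1 : (w : ℚ) ^ (d - i - j) = (w : ℚ) ^ d * ((w : ℚ)⁻¹ ^ i * (w : ℚ)⁻¹ ^ j) := by
    have h2 : (w : ℚ) ^ d = (w : ℚ) ^ (d - i - j) * ((w : ℚ) ^ i * (w : ℚ) ^ j) := by
      rw [← pow_add, ← pow_add]
      congr 1
      omega
    rw [h2, inv_pow, inv_pow]
    field_simp
  have h2 : (((F i j * (w : ℤ) ^ (d - i - j) : ℤ)) : ℚ) =
      (F i j : ℚ) * ((w : ℚ) ^ d * ((w : ℚ)⁻¹ ^ i * (w : ℚ)⁻¹ ^ j)) := by
    rw [← h1]
    push_cast
    rfl
  rw [h2]
  simp only [map_mul, map_pow, mul_pow]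
  ring

private theorem qho_irr (P : Ptr n) : Irreducible (FQ P.d (homF P.d P.w P.F)) := by
  have hw0 : ((P.w : ℕ) : ℚ) ≠ 0 := by
    have := P.w1
    exact_mod_cast (by omega : P.w ≠ 0)
  letI : Invertible ((P.w : ℚ)⁻¹) := invertibleOfNonzero (inv_ne_zero hw0)
  letI : Invertible (C ((P.w : ℚ)⁻¹) : ℚ[X]) := Invertible.map C ((P.w : ℚ)⁻¹)
  let σ1 : ℚ[X] ≃+* ℚ[X] := (Polynomial.algEquivCMulXAddC ((P.w : ℚ)⁻¹) 0).toRingEquiv
  let σ2 : ℚ[X][X] ≃+* ℚ[X][X] := (Polynomial.algEquivCMulXAddC (C ((P.w : ℚ)⁻¹) : ℚ[X]) 0).toRingEquiv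
  let σ : ℚ[X][X] ≃+* ℚ[X][X] := (Polynomial.mapEquiv σ1).trans σ2
  have hσX : σ (C X) = C (C ((P.w : ℚ)⁻¹) * X) := by
    simp [σ, σ1, σ2]
  have hσC : ∀ a : ℚ, σ (C (C a)) = C (C a) := by
    intro a
    simp [σ, σ1, σ2]
  have hσY : σ X = C (C ((P.w : ℚ)⁻¹)) * X := by
    simp [σ, σ1, σ2]
  have h1 := qho_FQ (σ : ℚ[X][X] →+* ℚ[X][X]) P.w hw0 P.d P.F hσX hσC hσY
  have h2 : Irreducible (σ (FQ P.d P.F)) := (MulEquiv.irreducible_iff σ).2 P.C.irr
  rw [h1]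
  have h3 : IsUnit (C (C ((P.w : ℚ) ^ P.d)) : ℚ[X][X]) :=
    (isUnit_C.2 (isUnit_C.2 (isUnit_iff_ne_zero.2 (pow_ne_zero _ hw0))))
  exact (irreducible_isUnit_mul h3).2 h2

private theorem qho_bez (P : Ptr n) : ∃ (u v : ℤ[X][X]) (c : ℤ[X]), c ≠ 0 ∧
    u * fI P.d (homF P.d P.w P.F) + v * derivative (fI P.d (homF P.d P.w P.F)) = C c ∧
    c.natDegree ≤ 2 * P.d * P.d ∧ ∀ i, |c.coeff i| ≤ (hb P : ℤ) := by
  obtain ⟨u, v, c, hc0, huv, hcd, hcb⟩ := P.C.bez
  have hw0 : ((P.w : ℕ) : ℤ) ≠ 0 := by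
    have := P.w1
    exact_mod_cast (by omega : P.w ≠ 0)
  have hco : ∀ i, (c.comp (C (P.w : ℤ) * X)).coeff i = c.coeff i * (P.w : ℤ) ^ i := by
    intro i
    rw [comp_C_mul_X_coeff]
  refine ⟨sct P.w u, sct P.w v, c.comp (C (P.w : ℤ) * X), ?_, ?_, ?_, ?_⟩
  · intro h0
    apply hc0
    ext i
    have h1 := hco i
    rw [h0, coeff_zero] at h1
    rw [coeff_zero]
    exact (mul_eq_zero.1 h1.symm).resolve_right (pow_ne_zero _ hw0)
  · have h1 := congrArg (sct P.w) huv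
    rw [map_add, map_mul, map_mul, sct_fI] at h1
    have h2 : sct P.w (derivative (fI P.d P.F)) = derivative (fI P.d (homF P.d P.w P.F)) := by
      rw [← sct_fI]
      unfold sct
      rw [coe_mapRingHom, derivative_map]
    have h3 : sct P.w (C c) = C (c.comp (C (P.w : ℤ) * X)) := by
      unfold sct
      rw [coe_mapRingHom, map_C, coe_compRingHom_apply]
    rw [h2, h3] at h1
    exact h1
  · refine natDegree_comp_le.trans ?_
    have h1 : (C (P.w : ℤ) * X : ℤ[X]).natDegree ≤ 1 := by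
      have := natDegree_C_mul_X_pow_le (P.w : ℤ) 1
      rwa [pow_one] at this
    calc c.natDegree * (C (P.w : ℤ) * X : ℤ[X]).natDegree ≤ c.natDegree * 1 := Nat.mul_le_mul_left _ h1
      _ ≤ 2 * P.d * P.d := by rw [mul_one]; exact hcd
  · intro i
    rw [hco i]
    by_cases hi : i ≤ 2 * n * n + n + 1
    · exact qho_int (hcb i) P.w1 hi
    · have h1 : c.coeff i = 0 := by
        apply coeff_eq_zero_of_natDegree_lt
        refine lt_of_le_of_lt hcd ?_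
        have h2 := P.C.dn
        have h3 : 2 * P.d * P.d ≤ 2 * n * n := Nat.mul_le_mul (Nat.mul_le_mul_left 2 h2) h2
        omega
      rw [h1, zero_mul, abs_zero]
      exact Int.natCast_nonneg _

private theorem qho_b (P : Ptr n) : P.b ≤ hb P := by
  have h2 := qho_w P (Nat.zero_le _)
  rwa [pow_zero, mul_one] at h2

private theorem qho_R (P : Ptr n) : P.C.pd.R * P.w ≤ ((hb P : ℕ) : ℝ) := by
  have h0 : P.b * P.w ^ 1 ≤ hb P := qho_w P (by omega)
  have h1 : ((P.b * P.w ^ 1 : ℕ) : ℝ) ≤ ((hb P : ℕ) : ℝ) := by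
    exact_mod_cast h0
  refine le_trans ?_ h1
  rw [pow_one, Nat.cast_mul]
  exact mul_le_mul_of_nonneg_right P.C.R_le (Nat.cast_nonneg _)

private theorem qho_le (P : Ptr n) (i j : ℕ) : |homF P.d P.w P.F i j| ≤ (hb P : ℤ) := by
  refine qho_int (P.C.le i j) P.w1 ?_
  have h1 := P.C.dn
  omega

private theorem qho_lead (P : Ptr n) : homF P.d P.w P.F 0 P.d = 1 := by
  unfold homF
  rw [P.C.lead, Nat.sub_zero, Nat.sub_self, pow_zero, mul_one]

/-- the Puiseux data of the homogenised curve -/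
theorem exists_hpd (P : Ptr n) : ∃ pd : PData (fI P.d (homF P.d P.w P.F)) P.d,
    pd.e = P.C.pd.e ∧ pd.q = P.C.pd.q ∧ pd.R = P.C.pd.R * P.w ∧
      ∀ i, pd.x i = PowerSeries.rescale ((om P : ℝ) : ℂ) (P.C.pd.x i) := by
  rw [← sct_fI P.d P.w P.F]
  exact exists_rpd P.C.pd P.w ((om P : ℝ) : ℂ) P.w1 (omC_pow P) (omC_int P)
    (by rw [Complex.norm_real, Real.norm_eq_abs, abs_of_pos (om_pos P)]; exact om_le P) (omC_ne P)

/-- the homogenised curve -/
theorem exists_hC (P : Ptr n) : ∃ C : CrvB n P.d (hb P) (homF P.d P.w P.F),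
    C.pd.e = P.C.pd.e ∧ C.pd.q = P.C.pd.q ∧ C.pd.R = P.C.pd.R * P.w ∧
      ∀ i, C.pd.x i = PowerSeries.rescale ((om P : ℝ) : ℂ) (P.C.pd.x i) := by
  obtain ⟨pd, h1, h2, h3, h4⟩ := exists_hpd P
  refine ⟨⟨P.C.d1, P.C.dn, P.C.b2.trans (qho_b P), qho_lead P, qho_le P, qho_irr P, pd, ?_, ?_, ?_,
    qho_bez P⟩, h1, h2, h3, h4⟩
  · rw [h1]
    exact P.C.e_le
  · rw [h2]
    exact P.C.q_le.trans (qho_b P)
  · rw [h3]
    exact qho_R P

/-- the homogenised curve -/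
noncomputable def hC (P : Ptr n) : CrvB n P.d (hb P) (homF P.d P.w P.F) := (exists_hC P).choose

theorem hC_e (P : Ptr n) : (hC P).pd.e = P.C.pd.e := (exists_hC P).choose_spec.1

theorem hC_q (P : Ptr n) : (hC P).pd.q = P.C.pd.q := (exists_hC P).choose_spec.2.1

theorem hC_x (P : Ptr n) (i : Fin P.d) :
    (hC P).pd.x i = PowerSeries.rescale ((om P : ℝ) : ℂ) (P.C.pd.x i) :=
  (exists_hC P).choose_spec.2.2.2 i

private theorem hC_T (P : Ptr n) :
    (((hC P).pd.q : ℂ) * (P.T / ((om P : ℝ) : ℂ))) ^ (hC P).pd.e * (P.x : ℂ) = 1 := by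
  have h5 := P.hT
  rw [hC_e, hC_q, mul_div_assoc', div_pow, omC_pow, div_mul_eq_mul_div, h5]
  have h6 := P.w1
  exact div_self (by exact_mod_cast (by omega : P.w ≠ 0))

private theorem hC_y (P : Ptr n) : H52.AC.evz (P.T / ((om P : ℝ) : ℂ)) ((hC P).pd.x P.i) =
    (P.y : ℂ) / (P.x : ℂ) := by
  rw [← P.hy, hC_x]
  unfold H52.AC.evz
  refine tsum_congr fun k => ?_
  rw [PowerSeries.coeff_rescale, div_pow]
  have := pow_ne_zero k (omC_ne P)
  field_simp

/-- the homogenised curve with the integer point -/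
noncomputable def hom (P : Ptr n) : Ptd n where
  d := P.d
  b := hb P
  F := homF P.d P.w P.F
  C := hC P
  i := P.i
  T := P.T / ((om P : ℝ) : ℂ)
  x := P.x
  y := P.y
  zero := P.zero
  hT := hC_T P
  hy := hC_y P

theorem hom_e (P : Ptr n) : (hom P).C.pd.e = P.C.pd.e := hC_e P

theorem hom_q (P : Ptr n) : (hom P).C.pd.q = P.C.pd.q := hC_q P

theorem hom_x (P : Ptr n) (i : Fin P.d) :
    (hom P).C.pd.x i = PowerSeries.rescale ((om P : ℝ) : ℂ) (P.C.pd.x i) := hC_x P i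

end Pool.Agent.H98.MQ
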