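import Pool.Agent.H98.MQ.Defs
import Pool.Agent.H97.NW.MAT

/-! # [H98 MQ QMG] The matrix of multiplication by the auxiliary function, curves with rational points

Copy of `CMP` and of the first half of `MAT` (`Pool/Agent/H97/NW`). -/

namespace Pool.Agent.H98.MQ

open Finset Polynomial Pool.Agent.H72.ES Pool.Agent.H87.SA2 Pool.Agent.H8.AW Pool.Agent.H52.AC
  Pool.Agent.H97.NW Pool.Agent.H97.TR Pool.Agent.H98.MR H4AR

variable {m n : ℕ}

/-- the companion matrix -/
noncomputable def cmq (P : Ptr n) : Matrix (Fin P.d) (Fin P.d) ℤ[X] := fun i j =>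
  if (i : ℕ) + 1 < P.d then (if (j : ℕ) = i + 1 then 1 else 0)
  else - ∑ k ∈ range (P.d + 1 - j), Polynomial.C (P.F k j) * X ^ k

private theorem cmq_deg (P : Ptr n) (i j : Fin P.d) : (cmq P i j).natDegree ≤ n := by
  unfold cmq
  by_cases hi : (i : ℕ) + 1 < P.d
  · rw [if_pos hi]
    by_cases hj : (j : ℕ) = i + 1
    · rw [if_pos hj, natDegree_one]
      exact Nat.zero_le _
    · rw [if_neg hj, natDegree_zero]
      exact Nat.zero_le _
  · rw [if_neg hi, natDegree_neg]
    apply natDegree_sum_le_of_forall_le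
    intro k hk
    refine (natDegree_C_mul_X_pow_le _ _).trans ?_
    rw [Finset.mem_range] at hk
    have := P.C.dn
    omega

private theorem cmq_L1 (P : Ptr n) (i j : Fin P.d) : L1 (cmq P i j) ≤ (n + 1) * P.b := by
  have hb : (1 : ℝ) ≤ P.b := by
    have := P.C.b2
    exact_mod_cast (by omega : 1 ≤ P.b)
  have hb1 : (1 : ℝ) ≤ (n + 1) * P.b := by
    have hn : (1 : ℝ) ≤ n + 1 := by
      have : (0 : ℝ) ≤ n := Nat.cast_nonneg _
      linarith
    calc (1 : ℝ) = 1 * 1 := by ring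
      _ ≤ (n + 1) * P.b := mul_le_mul hn hb (by norm_num) (by linarith)
  unfold cmq
  by_cases hi : (i : ℕ) + 1 < P.d
  · rw [if_pos hi]
    by_cases hj : (j : ℕ) = i + 1
    · rw [if_pos hj, L1_one]
      exact hb1
    · rw [if_neg hj, L1_zero]
      linarith
  · rw [if_neg hi, L1_neg]
    refine (L1_sum_le _ _).trans ?_
    have h1 : ∀ k ∈ range (P.d + 1 - (j : ℕ)), L1 (C (P.F k j) * X ^ k) ≤ (P.b : ℝ) := by
      intro k _
      rw [L1_monomial]
      exact_mod_cast P.C.le k j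
    refine (Finset.sum_le_sum h1).trans ?_
    rw [Finset.sum_const, Finset.card_range, nsmul_eq_mul]
    apply mul_le_mul_of_nonneg_right _ (by linarith)
    have h2 : P.d + 1 - (j : ℕ) ≤ n + 1 := by
      have := P.C.dn
      omega
    exact_mod_cast h2

theorem cmq_pow_deg (P : Ptr n) (β : ℕ) (i j : Fin P.d) :
    ((cmq P ^ β) i j).natDegree ≤ n * β := by
  induction β generalizing i j with
  | zero =>
    rw [pow_zero, mul_zero]
    by_cases hj : i = j
    · rw [hj, Matrix.one_apply_eq, natDegree_one]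
    · rw [Matrix.one_apply_ne hj, natDegree_zero]
  | succ β ih =>
    rw [pow_succ, Matrix.mul_apply]
    apply natDegree_sum_le_of_forall_le
    intro l _
    refine natDegree_mul_le.trans ?_
    have h1 := ih i l
    have h2 := cmq_deg P l j
    rw [mul_add, mul_one]
    omega

theorem cmq_pow_L1 (P : Ptr n) (β : ℕ) (i j : Fin P.d) :
    L1 ((cmq P ^ β) i j) ≤ (((n + 1) ^ 2 * P.b : ℕ) : ℝ) ^ β := by
  have hb : (1 : ℝ) ≤ P.b := by
    have := P.C.b2
    exact_mod_cast (by omega : 1 ≤ P.b)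
  induction β generalizing i j with
  | zero =>
    rw [pow_zero, pow_zero]
    by_cases hj : i = j
    · rw [hj, Matrix.one_apply_eq, L1_one]
    · rw [Matrix.one_apply_ne hj, L1_zero]
      exact zero_le_one
  | succ β ih =>
    rw [pow_succ, Matrix.mul_apply]
    refine (L1_sum_le _ _).trans ?_
    have h1 : ∀ l ∈ (Finset.univ : Finset (Fin P.d)), L1 ((cmq P ^ β) i l * cmq P l j) ≤
        (((n + 1) ^ 2 * P.b : ℕ) : ℝ) ^ β * ((n + 1) * P.b) := by
      intro l _
      refine (L1_mul_le _ _).trans ?_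
      exact mul_le_mul (ih i l) (cmq_L1 P l j) (L1_nonneg _) (by positivity)
    refine (Finset.sum_le_sum h1).trans ?_
    rw [Finset.sum_const, Finset.card_univ, Fintype.card_fin, nsmul_eq_mul, pow_succ]
    have h2 : (P.d : ℝ) ≤ n + 1 := by
      have := P.C.dn
      exact_mod_cast (by omega : P.d ≤ n + 1)
    have h3 : 0 ≤ (((n + 1) ^ 2 * P.b : ℕ) : ℝ) ^ β * ((n + 1) * P.b) := by positivity
    refine (mul_le_mul_of_nonneg_right h2 h3).trans (le_of_eq ?_)
    push_cast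
    ring

/-- the matrix of multiplication by the function `A` -/
noncomputable def MGq (P : Fin m → Ptr n) (N : Fin m → ℕ) (A : Mq P N → ℤ) :
    Matrix (∀ v, Fin (P v).d) (∀ v, Fin (P v).d) (MvPolynomial (Fin m) ℤ) := fun i j =>
  ∑ μ : Mq P N, MvPolynomial.C (A μ) * ∏ v, (MvPolynomial.X v ^ ((μ v).1 : ℕ) *
    Polynomial.aeval (MvPolynomial.X v : MvPolynomial (Fin m) ℤ)
      ((cmq (P v) ^ ((μ v).2 : ℕ)) (i v) (j v)))

/-- the degree of a polynomial in one variable -/
private theorem mat_deg_aeval (v w : Fin m) (q : ℤ[X]) :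
    (Polynomial.aeval (MvPolynomial.X w : MvPolynomial (Fin m) ℤ) q).degreeOf v ≤
      if v = w then q.natDegree else 0 := by
  classical
  rw [Polynomial.aeval_eq_sum_range]
  refine (MvPolynomial.degreeOf_sum_le _ _ _).trans ?_
  refine Finset.sup_le fun i hi => ?_
  rw [mem_range] at hi
  have h1 : (q.coeff i • (MvPolynomial.X w : MvPolynomial (Fin m) ℤ) ^ i) =
      MvPolynomial.C (q.coeff i) * MvPolynomial.X w ^ i := by
    rw [MvPolynomial.C_mul']
  rw [h1]
  refine (MvPolynomial.degreeOf_C_mul_le _ _ _).trans ?_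
  refine (MvPolynomial.degreeOf_pow_le _ _ _).trans ?_
  rw [MvPolynomial.degreeOf_X]
  split_ifs
  · omega
  · omega

theorem MGq_deg (P : Fin m → Ptr n) (N : Fin m → ℕ) (A : Mq P N → ℤ)
    (i j : ∀ v, Fin (P v).d) (v : Fin m) : (MGq P N A i j).degreeOf v ≤ N v + n * n := by
  classical
  unfold MGq
  refine (MvPolynomial.degreeOf_sum_le _ _ _).trans ?_
  refine Finset.sup_le fun μ _ => ?_
  refine (MvPolynomial.degreeOf_C_mul_le _ _ _).trans ?_
  refine (MvPolynomial.degreeOf_prod_le _ _ _).trans ?_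
  have h1 : ∀ w ∈ (Finset.univ : Finset (Fin m)), MvPolynomial.degreeOf v ((MvPolynomial.X w ^ ((μ w).1 : ℕ) *
      Polynomial.aeval (MvPolynomial.X w : MvPolynomial (Fin m) ℤ)
      ((cmq (P w) ^ ((μ w).2 : ℕ)) (i w) (j w)))) ≤ if w = v then N v + n * n else 0 := by
    intro w _
    refine (MvPolynomial.degreeOf_mul_le _ _ _).trans ?_
    have h2 := mat_deg_aeval v w ((cmq (P w) ^ ((μ w).2 : ℕ)) (i w) (j w))
    have h3 : MvPolynomial.degreeOf v ((MvPolynomial.X w : MvPolynomial (Fin m) ℤ) ^ ((μ w).1 : ℕ)) ≤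
        if v = w then ((μ w).1 : ℕ) else 0 := by
      refine (MvPolynomial.degreeOf_pow_le _ _ _).trans ?_
      rw [MvPolynomial.degreeOf_X]
      split_ifs
      · omega
      · omega
    by_cases hvw : v = w
    · subst hvw
      rw [if_pos rfl] at h2 h3 ⊢
      have h4 := cmq_pow_deg (P v) ((μ v).2 : ℕ) (i v) (j v)
      have h5 : n * ((μ v).2 : ℕ) ≤ n * n := by
        apply Nat.mul_le_mul_left
        have := (μ v).2.isLt
        have := (P v).C.dn
        omega
      have h6 := (μ v).1.isLt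
      omega
    · rw [if_neg hvw] at h2 h3
      rw [if_neg (fun h => hvw h.symm)]
      omega
  refine (Finset.sum_le_sum h1).trans ?_
  rw [Finset.sum_ite_eq' Finset.univ v]
  simp

private theorem mat_l1_C (a : ℤ) : l1 (MvPolynomial.C a : MvPolynomial (Fin m) ℤ) ≤ |(a : ℝ)| := by
  classical
  have h : (MvPolynomial.C a : MvPolynomial (Fin m) ℤ).support ⊆ {0} := by
    intro e he
    rw [MvPolynomial.mem_support_iff, MvPolynomial.coeff_C] at he
    rw [Finset.mem_singleton]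
    by_contra h
    exact he (if_neg fun h' => h h'.symm)
  rw [l1_eq_sum _ {0} h, Finset.sum_singleton, MvPolynomial.coeff_C, if_pos rfl]

private theorem mat_l1_X (v : Fin m) : l1 (MvPolynomial.X v : MvPolynomial (Fin m) ℤ) ≤ 1 := by
  classical
  have h : (MvPolynomial.X v : MvPolynomial (Fin m) ℤ).support ⊆ {Finsupp.single v 1} := by
    rw [MvPolynomial.support_X]
  rw [l1_eq_sum _ _ h, Finset.sum_singleton, MvPolynomial.coeff_X, if_pos rfl, Int.cast_one, abs_one]

private theorem mat_l1_Xpow (v : Fin m) (a : ℕ) :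
    l1 ((MvPolynomial.X v : MvPolynomial (Fin m) ℤ) ^ a) ≤ 1 := by
  induction a with
  | zero => rw [pow_zero, l1_one]
  | succ a ih =>
    rw [pow_succ]
    refine (l1_mul_le _ _).trans ?_
    exact mul_le_one₀ ih (l1_nonneg _) (mat_l1_X v)

private theorem mat_l1_aeval (v : Fin m) (q : ℤ[X]) :
    l1 (Polynomial.aeval (MvPolynomial.X v : MvPolynomial (Fin m) ℤ) q) ≤ L1 q := by
  classical
  have h0 : Polynomial.aeval (MvPolynomial.X v : MvPolynomial (Fin m) ℤ) q =
      ∑ i ∈ q.support, MvPolynomial.C (q.coeff i) * MvPolynomial.X v ^ i := by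
    rw [Polynomial.aeval_def, Polynomial.eval₂_eq_sum, Polynomial.sum_def]
    rfl
  rw [h0]
  refine (l1_sum_le _ _).trans ?_
  unfold L1
  refine Finset.sum_le_sum fun i _ => ?_
  refine (l1_mul_le _ _).trans ?_
  calc l1 (MvPolynomial.C (q.coeff i) : MvPolynomial (Fin m) ℤ) *
        l1 ((MvPolynomial.X v : MvPolynomial (Fin m) ℤ) ^ i)
      ≤ |((q.coeff i : ℤ) : ℝ)| * 1 :=
        mul_le_mul (mat_l1_C _) (mat_l1_Xpow v i) (l1_nonneg _) (abs_nonneg _)
    _ = |((q.coeff i : ℤ) : ℝ)| := mul_one _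

theorem MGq_l1 (P : Fin m → Ptr n) (N : Fin m → ℕ) (A : Mq P N → ℤ) {Z : ℝ}
    (hA : ∀ μ, |(A μ : ℝ)| ≤ Z) (i j : ∀ v, Fin (P v).d) :
    l1 (MGq P N A i j) ≤ ((∏ v, (N v * (P v).d) : ℕ) : ℝ) * (Z *
      ∏ v, (((n + 1) ^ 2 * (P v).b : ℕ) : ℝ) ^ n) := by
  classical
  have hbase : ∀ v, (1 : ℝ) ≤ (((n + 1) ^ 2 * (P v).b : ℕ) : ℝ) := by
    intro v
    have h1 := (P v).C.b2
    have h2 : 1 ≤ (n + 1) ^ 2 * (P v).b := by
      have : 0 < (n + 1) ^ 2 * (P v).b := by positivity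
      omega
    exact_mod_cast h2
  have hterm : ∀ μ ∈ (Finset.univ : Finset (Mq P N)), l1 (MvPolynomial.C (A μ) * ∏ v, (MvPolynomial.X v ^ ((μ v).1 : ℕ) *
    Polynomial.aeval (MvPolynomial.X v : MvPolynomial (Fin m) ℤ)
      ((cmq (P v) ^ ((μ v).2 : ℕ)) (i v) (j v)))) ≤ Z *
      ∏ v, (((n + 1) ^ 2 * (P v).b : ℕ) : ℝ) ^ n := by
    intro μ _
    refine (l1_mul_le _ _).trans ?_
    refine mul_le_mul ((mat_l1_C _).trans (hA μ)) ?_ (l1_nonneg _) ((abs_nonneg _).trans (hA μ))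
    refine (l1_prod_le _ _).trans ?_
    refine Finset.prod_le_prod (fun v _ => l1_nonneg _) fun v _ => ?_
    refine (l1_mul_le _ _).trans ?_
    have h1 := mat_l1_aeval v ((cmq (P v) ^ ((μ v).2 : ℕ)) (i v) (j v))
    have h2 := cmq_pow_L1 (P v) ((μ v).2 : ℕ) (i v) (j v)
    have h3 : (((n + 1) ^ 2 * (P v).b : ℕ) : ℝ) ^ ((μ v).2 : ℕ) ≤ (((n + 1) ^ 2 * (P v).b : ℕ) : ℝ) ^ n := by
      apply pow_le_pow_right₀ (hbase v)
      have := (μ v).2.isLt
      have := (P v).C.dn
      omega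
    calc l1 ((MvPolynomial.X v : MvPolynomial (Fin m) ℤ) ^ ((μ v).1 : ℕ)) *
          l1 (Polynomial.aeval (MvPolynomial.X v : MvPolynomial (Fin m) ℤ)
            ((cmq (P v) ^ ((μ v).2 : ℕ)) (i v) (j v)))
        ≤ 1 * (((n + 1) ^ 2 * (P v).b : ℕ) : ℝ) ^ n :=
          mul_le_mul (mat_l1_Xpow v _) ((h1.trans h2).trans h3) (l1_nonneg _) zero_le_one
      _ = (((n + 1) ^ 2 * (P v).b : ℕ) : ℝ) ^ n := one_mul _
  unfold MGq
  refine (l1_sum_le _ _).trans ?_
  refine (Finset.sum_le_sum hterm).trans ?_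
  rw [Finset.sum_const, nsmul_eq_mul]
  apply le_of_eq
  congr 2
  rw [Finset.card_univ, Fintype.card_pi]
  refine Finset.prod_congr rfl fun v _ => ?_
  rw [Fintype.card_prod, Fintype.card_fin, Fintype.card_fin]

end Pool.Agent.H98.MQ
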