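import Pool.Agent.H98.MQ.QHO
import Pool.Agent.H98.MR.RPF

/-! # [H98 MQ QPF] The facts about the homogenised curve

Copy of `Pool/Agent/H98/MR/RPF.lean`; `Lc Q U ρ`: what is needed for the local expansions at the integer point. -/

namespace Pool.Agent.H98.MQ

open Finset Polynomial Pool.Agent.H72.ES Pool.Agent.H87.SA2 Pool.Agent.H8.AW Pool.Agent.H52.AC
  Pool.Agent.H97.NW Pool.Agent.H97.TR Pool.Agent.H98.MR

/-- what is needed for the local expansions at the integer point -/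
structure Lc {n : ℕ} (Q : Ptd n) (U ρ : ℝ) : Prop where
  ρ2 : 2 ≤ ρ
  gr : ∀ i k, ‖PowerSeries.coeff k (Q.C.pd.x i)‖ ≤ U * ρ ^ k
  big : 4 * (2 * ρ) ^ Q.C.pd.e ≤ |(Q.x : ℝ)|
  evy0 : evy Q.d Q.F Q.x Q.y ≠ 0

/-- `|F_y| ≤ |x|^(Ew κ n)` -/
def Ew (κ n : ℕ) : ℕ := κ * (n + 1) + 2 * n

private theorem rpf_cast (d : ℕ) (F : ℕ → ℕ → ℤ) (x y : ℤ) :
    ((evy d F x y : ℤ) : ℂ) = evy d (cst ℂ F) (x : ℂ) (y : ℂ) := by
  have h := evy_map (Int.castRingHom ℂ) d F x y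
  simp only [eq_intCast] at h
  exact h

private theorem rpf_double {d : ℕ} (z : Fin d → ℂ) {i j : Fin d} (hij : j ≠ i) (h : z j = z i) :
    (derivative (∏ k, (X - C (z k)))).eval (z i) = 0 := by
  classical
  have h1 : ∏ k, (X - C (z k)) = (X - C (z i)) * ((X - C (z j)) *
      ∏ k ∈ (univ.erase i).erase j, (X - C (z k))) := by
    rw [mul_prod_erase (univ.erase i) (fun k => X - C (z k)) (mem_erase.2 ⟨hij, mem_univ j⟩),
      mul_prod_erase univ (fun k => X - C (z k)) (mem_univ i)]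
  rw [h1, derivative_mul, derivative_mul, h]
  simp

private theorem rpf_uniq {d : ℕ} {F : ℕ → ℕ → ℤ} (pd : PData (fI d F) d) {x y : ℤ}
    (hκ : evy d F x y ≠ 0) {U ρ : ℝ} (hρ : 0 ≤ ρ)
    (hg : ∀ i k, ‖PowerSeries.coeff k (pd.x i)‖ ≤ U * ρ ^ k) {T : ℂ} (hT : ρ * ‖T‖ < 1)
    (hTx : ((pd.q : ℂ) * T) ^ pd.e * (x : ℂ) = 1) {i : Fin d}
    (hi : H52.AC.evz T (pd.x i) = (y : ℂ) / (x : ℂ)) :
    ∀ j, H52.AC.evz T (pd.x j) = (y : ℂ) / (x : ℂ) → j = i := by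
  intro j hj
  by_contra hne
  set t : ℂ := ((pd.q : ℂ) * T) ^ pd.e with ht
  have hx : (x : ℂ) ≠ 0 := right_ne_zero_of_mul_eq_one hTx
  have hyx : (y : ℂ) / (x : ℂ) = t * y := by
    rw [div_eq_iff hx, mul_right_comm, hTx, one_mul]
  have hsp := split_r pd hρ hg hT
  have h1 := fI_deriv d F (x := (x : ℂ)) (y := (y : ℂ)) (t := t) hTx
  rw [← derivative_map, hsp, ← hyx, ← hi, rpf_double (fun k => H52.AC.evz T (pd.x k)) hne
    (hj.trans hi.symm), ← rpf_cast] at h1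
  have ht0 : t ≠ 0 := left_ne_zero_of_mul_eq_one hTx
  have h2 : ((evy d F x y : ℤ) : ℂ) = 0 := by
    rcases mul_eq_zero.1 h1.symm with h | h
    · exact absurd h (pow_ne_zero _ ht0)
    · exact h
  exact hκ (by exact_mod_cast h2)

variable {n κ c : ℕ}

theorem Lc.facts {Q : Ptd n} {U ρ : ℝ} (h : Lc Q U ρ) : ρ * ‖Q.T‖ ≤ 1 / 2 ∧ Q.x ≠ 0 ∧
    ∀ j, H52.AC.evz Q.T (Q.C.pd.x j) = (Q.y : ℂ) / (Q.x : ℂ) → j = Q.i := by
  have hρ2 := h.ρ2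
  have hρ0 : (0 : ℝ) ≤ ρ := by linarith
  have hq1 : (1 : ℝ) ≤ Q.C.pd.q := by exact_mod_cast Q.C.pd.q_pos
  have he1 := Q.C.pd.e_pos
  have h4 := h.big
  have hxpos : 0 < |(Q.x : ℝ)| := by
    refine lt_of_lt_of_le ?_ h4
    positivity
  have hx0 : Q.x ≠ 0 := by
    intro h0
    rw [h0, Int.cast_zero, abs_zero] at hxpos
    exact lt_irrefl _ hxpos
  have hnorm : ((Q.C.pd.q : ℝ) * ‖Q.T‖) ^ Q.C.pd.e * |(Q.x : ℝ)| = 1 := by
    have h5 := congrArg norm Q.hT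
    rw [norm_mul, norm_pow, norm_mul, norm_one, Complex.norm_natCast, Complex.norm_intCast] at h5
    exact h5
  have h1 : ρ * ‖Q.T‖ ≤ 1 / 2 := by
    by_contra hcon
    push Not at hcon
    have h5 : 1 < (2 * ρ * ‖Q.T‖) ^ Q.C.pd.e := one_lt_pow₀ (by linarith) (by omega)
    have h6 : (2 * ρ * ‖Q.T‖) ^ Q.C.pd.e ≤
        (2 * ρ) ^ Q.C.pd.e * ((Q.C.pd.q : ℝ) * ‖Q.T‖) ^ Q.C.pd.e := by
      rw [← mul_pow]
      apply pow_le_pow_left₀ (by positivity)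
      have h7 : ‖Q.T‖ ≤ (Q.C.pd.q : ℝ) * ‖Q.T‖ := le_mul_of_one_le_left (norm_nonneg _) hq1
      exact mul_le_mul_of_nonneg_left h7 (by positivity)
    have h8 : (2 * ρ) ^ Q.C.pd.e * ((Q.C.pd.q : ℝ) * ‖Q.T‖) ^ Q.C.pd.e ≤ 1 := by
      rw [← hnorm, mul_comm]
      apply mul_le_mul_of_nonneg_left _ (by positivity)
      have : 0 ≤ (2 * ρ) ^ Q.C.pd.e := by positivity
      linarith
    linarith
  exact ⟨h1, hx0, rpf_uniq Q.C.pd h.evy0 hρ0 h.gr (by linarith) Q.hT Q.hy⟩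

theorem lc_hom {P : Ptr n} {ρ : ℝ} (h : Rcr κ c P ρ) (hc : cR n ≤ c) :
    Lc (hom P) (|(P.x : ℝ)| ^ κ) (ρ * om P) := by
  have hρ2 := h.ρ2
  have ho := om_one P
  refine ⟨by nlinarith, ?_, ?_, h.evy0⟩
  · intro i k
    rw [hom_x, PowerSeries.coeff_rescale, norm_mul, norm_pow, Complex.norm_real, Real.norm_eq_abs,
      abs_of_pos (om_pos P), mul_pow]
    have h1 := h.gr i k
    have h2 : (0 : ℝ) ≤ om P ^ k := by positivity
    calc om P ^ k * ‖PowerSeries.coeff k (P.C.pd.x i)‖ ≤ om P ^ k * (|(P.x : ℝ)| ^ κ * ρ ^ k) :=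
          mul_le_mul_of_nonneg_left h1 h2
      _ = |(P.x : ℝ)| ^ κ * (ρ ^ k * om P ^ k) := by ring
  · rw [hom_e]
    have hen : P.C.pd.e ≤ n.factorial := P.C.e_le.trans (Nat.factorial_le P.C.dn)
    have hcn : 4 * n + 2 * n.factorial + 4 ≤ c := hc
    have h4 : 4 * (2 * ρ) ^ P.C.pd.e ≤ |(P.x : ℝ)| / P.w := by
      refine le_trans ?_ h.thr
      calc 4 * (2 * ρ) ^ P.C.pd.e ≤ (ρ * ρ) * (ρ * ρ) ^ P.C.pd.e := by
            have h5 : (4 : ℝ) ≤ ρ * ρ := by nlinarith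
            gcongr
        _ = ρ ^ (2 + 2 * P.C.pd.e) := by
            rw [pow_add, pow_mul, pow_two]
        _ ≤ ρ ^ c := by
            apply pow_le_pow_right₀ (by linarith)
            omega
    have hw := P.w1R
    rw [le_div_iff₀ (by linarith)] at h4
    have h5 : (2 * (ρ * om P)) ^ P.C.pd.e = (2 * ρ) ^ P.C.pd.e * P.w := by
      rw [← mul_assoc, mul_pow, om_pow]
    rw [h5]
    have h6 : ((hom P).x : ℝ) = (P.x : ℝ) := rfl
    rw [h6]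
    linarith

theorem kap_hom {P : Ptr n} {ρ : ℝ} (h : Rcr κ c P ρ) (hc : cR n ≤ c) :
    (hom P).kap ≠ 0 ∧ |((hom P).kap : ℝ)| ≤ |(P.x : ℝ)| ^ (2 * Ew κ n) := by
  obtain ⟨h1, hx0, -⟩ := (lc_hom h hc).facts
  have hl := lc_hom h hc
  have hρ2 := h.ρ2
  have hρ1 : (1 : ℝ) ≤ ρ := by linarith
  have hρ0 : (0 : ℝ) ≤ ρ := by linarith
  have hρ20 : (0 : ℝ) ≤ ρ * om P := mul_nonneg hρ0 (om_pos P).le
  have hd1 := P.C.d1
  have hdn := P.C.dn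
  have hcn : 4 * n + 2 * n.factorial + 4 ≤ c := hc
  set A : ℝ := |(P.x : ℝ)| with hA
  have hA1 : 1 ≤ A := h.x1
  have hA0 : 0 < A := by linarith
  have hwA : (P.w : ℝ) ≤ A := h.w_le
  have hw1 := P.w1R
  have h2 : (2 : ℝ) ^ (4 * P.d) ≤ A := by
    have g1 : |(P.x : ℝ)| / P.w ≤ |(P.x : ℝ)| := div_le_self (abs_nonneg _) hw1
    refine le_trans ?_ (h.thr.trans g1)
    calc (2 : ℝ) ^ (4 * P.d) ≤ ρ ^ (4 * P.d) := pow_le_pow_left₀ (by norm_num) hρ2 _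
      _ ≤ ρ ^ c := pow_le_pow_right₀ hρ1 (by omega)
  refine ⟨pow_ne_zero _ h.evy0, ?_⟩
  have h5 : ‖H52.AC.evz (hom P).T ((hom P).C.pd.x P.i)‖ ≤ 2 * A ^ κ :=
    evz_le (by positivity) hρ20 h1 (hl.gr P.i)
  have hy : H52.AC.evz (hom P).T ((hom P).C.pd.x P.i) = (P.y : ℂ) / (P.x : ℂ) := (hom P).hy
  rw [hy, norm_div, Complex.norm_intCast, Complex.norm_intCast, div_le_iff₀ hA0] at h5
  have hAκ : 1 ≤ A ^ κ := one_le_pow₀ hA1
  have hle : ∀ i j, |homF P.d P.w P.F i j| ≤ ((P.b * P.w ^ P.d : ℕ) : ℤ) := by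
    intro i j
    unfold homF
    have g1 : ((P.w : ℕ) : ℤ) ^ (P.d - i - j) ≤ ((P.w : ℕ) : ℤ) ^ P.d :=
      pow_le_pow_right₀ (by exact_mod_cast P.w1) (by omega)
    have g2 : (0 : ℤ) ≤ ((P.w : ℕ) : ℤ) ^ (P.d - i - j) := by positivity
    rw [abs_mul, abs_of_nonneg g2]
    push_cast
    exact mul_le_mul (P.C.le i j) g1 g2 (by positivity)
  have h6 := evy_size (n := P.d) (b := P.b * P.w ^ P.d) (F := homF P.d P.w P.F) hd1 hle
    (c := 2 * A ^ κ) (by linarith) hx0 h5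
  have h7 : ((P.d : ℝ) + 1) ^ 2 * P.d ≤ 2 ^ (3 * P.d) := by
    have h8 : P.d + 1 ≤ 2 ^ P.d := Nat.lt_two_pow_self
    have h9 : (P.d : ℝ) + 1 ≤ 2 ^ P.d := by exact_mod_cast h8
    have h10 : (P.d : ℝ) ≤ 2 ^ P.d := by linarith
    calc ((P.d : ℝ) + 1) ^ 2 * P.d ≤ ((2 : ℝ) ^ P.d) ^ 2 * 2 ^ P.d := by gcongr
      _ = 2 ^ (3 * P.d) := by
          rw [← pow_succ, ← pow_mul]
          congr 1
          ring
  have hbw : ((P.b * P.w ^ P.d : ℕ) : ℝ) ≤ A ^ κ * A ^ P.d := by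
    push_cast
    have := h.b_le
    gcongr
  have h8 : |((evy P.d (homF P.d P.w P.F) P.x P.y : ℤ) : ℝ)| ≤ A ^ Ew κ n := by
    refine h6.trans ?_
    calc ((P.d : ℝ) + 1) ^ 2 * P.d * ((P.b * P.w ^ P.d : ℕ) : ℝ) * (2 * A ^ κ) ^ P.d * A ^ (P.d - 1)
        ≤ 2 ^ (3 * P.d) * (A ^ κ * A ^ P.d) * (2 * A ^ κ) ^ P.d * A ^ (P.d - 1) := by
          gcongr
      _ = 2 ^ (4 * P.d) * A ^ (κ + κ * P.d + (P.d + (P.d - 1))) := by
          have e : 4 * P.d = 3 * P.d + P.d := by ring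
          rw [mul_pow, e, pow_add, pow_add, pow_add, pow_add, pow_mul A κ]
          ring
      _ ≤ A * A ^ (κ + κ * P.d + (P.d + (P.d - 1))) := by gcongr
      _ = A ^ (κ + κ * P.d + (P.d + P.d)) := by
          rw [← pow_succ']
          congr 1
          omega
      _ ≤ A ^ Ew κ n := by
          apply pow_le_pow_right₀ hA1
          unfold Ew
          calc κ + κ * P.d + (P.d + P.d) ≤ κ + κ * n + (n + n) := by gcongr
            _ = κ * (n + 1) + 2 * n := by ring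
  have h9 : ((hom P).kap : ℝ) = ((evy P.d (homF P.d P.w P.F) P.x P.y : ℤ) : ℝ) ^ 2 := by
    unfold Ptd.kap
    push_cast
    rfl
  rw [h9, abs_pow, mul_comm 2, pow_mul]
  exact pow_le_pow_left₀ (abs_nonneg _) h8 2

end Pool.Agent.H98.MQ
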