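import Pool.Agent.H98.MQ.QTA
import Pool.Agent.H98.MQ.QVA

/-! # [H98 MQ QZE] The function is small near the rational point

Copy of `Pool/Agent/H98/MR/RZE.lean`, with the weights `ϱ_v h_v`. -/

namespace Pool.Agent.H98.MQ

open Finset Polynomial Pool.Agent.H72.ES Pool.Agent.H87.SA2 Pool.Agent.H8.AW Pool.Agent.H52.AC
  Pool.Agent.H97.NW Pool.Agent.H97.TR Pool.Agent.H98.MR

private theorem zer_one {n κ c : ℕ} {P : Ptr n} {ρ : ℝ} (hc : cR n ≤ c) (h : Rcr κ c P ρ)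
    {δ : ℝ} (hδ : 0 < δ) (hδ2 : δ ≤ 1 / 2) (hc1 : 2 * (n.factorial : ℝ) + 1 ≤ δ * c) (T' ξ : ℂ)
    (hT : (((P.C.pd.q : ℕ) : ℂ) * T') ^ P.C.pd.e * ξ = 1)
    (hξ : ‖ξ - (P.x : ℂ)‖ ≤ |(P.x : ℝ)| / 2) :
    2 * P.C.pd.q * ρ * ‖((om P : ℝ) : ℂ) * T'‖ ≤ 1 / 2 ∧
      (2 * P.C.pd.q * ρ * ‖((om P : ℝ) : ℂ) * T'‖) ^ P.C.pd.e ≤ Real.exp (-(1 - δ) * P.ell) ∧
      ρ * om P * ‖T'‖ < 1 ∧ ‖ξ‖ ≤ Real.exp (P.hh + 1) := by
  have hx0 : P.x ≠ 0 := h.x_ne
  obtain ⟨T, hTT⟩ : ∃ T : ℂ, T = ((om P : ℝ) : ℂ) * T' := ⟨_, rfl⟩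
  have hTn : ‖T‖ = om P * ‖T'‖ := by
    rw [hTT, norm_mul, Complex.norm_real, Real.norm_eq_abs, abs_of_pos (om_pos P)]
  rw [← hTT, mul_assoc ρ, ← hTn]
  obtain ⟨hg1, hg2⟩ := h.ell_ge
  have hX0 : (0 : ℝ) < |(P.x : ℝ)| := by
    rw [abs_pos]
    exact_mod_cast hx0
  have hw1 := P.w1R
  have hw0 : (0 : ℝ) < P.w := by linarith
  have hexp : Real.exp P.hh = |(P.x : ℝ)| := Real.exp_log hX0
  have hexpl : Real.exp P.ell = |(P.x : ℝ)| / P.w := Real.exp_log (div_pos hX0 hw0)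
  set X : ℝ := |(P.x : ℝ)| with hX
  have hxn : ‖(P.x : ℂ)‖ = X := by
    rw [Complex.norm_intCast]
  have hb2 : (2 : ℝ) ≤ ρ := h.ρ2
  have hq1 : (1 : ℝ) ≤ P.C.pd.q := by exact_mod_cast P.C.pd.q_pos
  have hef : P.C.pd.e ≤ n.factorial := P.C.e_le.trans (Nat.factorial_le P.C.dn)
  have hfac : (P.C.pd.e : ℝ) ≤ (n.factorial : ℝ) := by exact_mod_cast hef
  have hl2 : 0 < Real.log 2 := Real.log_pos (by norm_num)
  have hlb : 0 < Real.log ρ := Real.log_pos (by linarith)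
  have hfac0 : (0 : ℝ) ≤ (n.factorial : ℝ) := Nat.cast_nonneg _
  have hc0 : (0 : ℝ) < c := by
    by_contra hcon
    push Not at hcon
    nlinarith
  have hell0 : 0 < P.ell := lt_of_lt_of_le (by positivity) hg2
  -- the size of `ξ`
  have hξ1 : X / 2 ≤ ‖ξ‖ := by
    have h1 := norm_sub_norm_le (P.x : ℂ) ξ
    rw [hxn, norm_sub_rev] at h1
    linarith
  have hξ2 : ‖ξ‖ ≤ Real.exp (P.hh + 1) := by
    have h1 := norm_sub_norm_le ξ (P.x : ℂ)
    rw [hxn] at h1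
    rw [Real.exp_add, hexp]
    have h2 := Real.add_one_le_exp (1 : ℝ)
    nlinarith
  -- the size of `T`
  have hnT : ((P.C.pd.q : ℝ) * ‖T‖) ^ P.C.pd.e * ‖ξ‖ = P.w := by
    have h1 := congrArg norm hT
    rw [norm_mul, norm_pow, norm_mul, Complex.norm_natCast, norm_one] at h1
    rw [hTn, mul_left_comm, mul_pow, om_pow, mul_assoc, h1, mul_one]
  set τ : ℝ := (P.C.pd.q : ℝ) * ‖T‖ with hτ
  have hτ0 : 0 ≤ τ := by positivity
  have hτe : τ ^ P.C.pd.e ≤ 2 * Real.exp (-P.ell) := by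
    rw [Real.exp_neg, hexpl, inv_div]
    have h1 : τ ^ P.C.pd.e * (X / 2) ≤ P.w := by
      rw [← hnT]
      exact mul_le_mul_of_nonneg_left hξ1 (by positivity)
    rw [mul_div_assoc', le_div_iff₀ hX0]
    linarith
  have hs : 2 * P.C.pd.q * ρ * ‖T‖ = (2 * ρ) * τ := by rw [hτ]; ring
  have hpow : 2 * (2 * ρ) ^ P.C.pd.e ≤ Real.exp (δ * P.ell) := by
    have h1 : (2 * ρ) ^ P.C.pd.e ≤ ρ ^ (2 * n.factorial) := by
      calc (2 * ρ) ^ P.C.pd.e ≤ (ρ ^ 2) ^ P.C.pd.e := by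
            apply pow_le_pow_left₀ (by linarith)
            nlinarith
        _ = ρ ^ (2 * P.C.pd.e) := by rw [← pow_mul]
        _ ≤ ρ ^ (2 * n.factorial) := pow_le_pow_right₀ (by linarith) (by omega)
    have h2 : 2 * (2 * ρ) ^ P.C.pd.e ≤ ρ ^ (2 * n.factorial + 1) := by
      rw [pow_succ, mul_comm]
      exact mul_le_mul h1 hb2 (by norm_num) (by positivity)
    refine h2.trans ?_
    have h3 : ρ ^ (2 * n.factorial + 1) =
        Real.exp (((2 * n.factorial + 1 : ℕ) : ℝ) * Real.log ρ) := by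
      rw [Real.exp_nat_mul, Real.exp_log (by linarith)]
    rw [h3]
    apply Real.exp_le_exp.mpr
    push_cast
    calc (2 * (n.factorial : ℝ) + 1) * Real.log ρ ≤ (δ * c) * Real.log ρ :=
          mul_le_mul_of_nonneg_right hc1 hlb.le
      _ = δ * (c * Real.log ρ) := by ring
      _ ≤ δ * P.ell := mul_le_mul_of_nonneg_left hg1 hδ.le
  have hse : ((2 * ρ) * τ) ^ P.C.pd.e ≤ Real.exp (-(1 - δ) * P.ell) := by
    rw [mul_pow]
    calc (2 * ρ) ^ P.C.pd.e * τ ^ P.C.pd.e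
        ≤ (2 * ρ) ^ P.C.pd.e * (2 * Real.exp (-P.ell)) :=
          mul_le_mul_of_nonneg_left hτe (pow_nonneg (by linarith) _)
      _ = (2 * (2 * ρ) ^ P.C.pd.e) * Real.exp (-P.ell) := by ring
      _ ≤ Real.exp (δ * P.ell) * Real.exp (-P.ell) :=
          mul_le_mul_of_nonneg_right hpow (Real.exp_pos _).le
      _ = Real.exp (-(1 - δ) * P.ell) := by
          rw [← Real.exp_add]
          congr 1
          ring
  have hs2 : (2 * ρ) * τ ≤ 1 / 2 := by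
    by_contra hcon
    push Not at hcon
    have h1 : (1 / 2 : ℝ) ^ P.C.pd.e < ((2 * ρ) * τ) ^ P.C.pd.e :=
      pow_lt_pow_left₀ hcon (by norm_num) (by have := P.C.pd.e_pos; omega)
    have h2 : (1 / 2 : ℝ) ^ P.C.pd.e = Real.exp (-((P.C.pd.e : ℝ) * Real.log 2)) := by
      rw [Real.exp_neg, Real.exp_nat_mul, Real.exp_log (by norm_num), one_div, inv_pow]
    rw [h2] at h1
    have h3 := Real.exp_lt_exp.mp (h1.trans_le hse)
    have h4 : (P.C.pd.e : ℝ) * 2 ≤ c := by nlinarith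
    have h5 : (P.C.pd.e : ℝ) * 2 * Real.log 2 ≤ P.ell :=
      (mul_le_mul_of_nonneg_right h4 hl2.le).trans hg2
    have h6 : δ * P.ell ≤ 1 / 2 * P.ell := mul_le_mul_of_nonneg_right hδ2 hell0.le
    linarith
  refine ⟨hs ▸ hs2, hs ▸ hse, ?_, hξ2⟩
  have h1 : ‖T‖ ≤ τ := by
    rw [hτ]
    exact le_mul_of_one_le_left (norm_nonneg _) hq1
  have h2 : ρ * ‖T‖ ≤ ρ * τ := mul_le_mul_of_nonneg_left h1 (by linarith)
  linarith

theorem small_q (m n κ : ℕ) (hm : 1 ≤ m) (hn : 1 ≤ n) (η : ℝ) (hη : 0 < η) (hη1 : η ≤ 1)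
    (ϱ : Fin m → ℝ) (hϱ1 : ∀ v, ϱ v ≤ 1) (r0 : ℝ) (hr0 : 0 < r0) (hrϱ : ∀ v, r0 ≤ ϱ v) :
    ∃ (c : ℕ) (K1 : ℝ), cR n ≤ c ∧ 1 ≤ K1 ∧ ∀ (P : Fin m → Ptr n) (ρ : Fin m → ℝ),
      (∀ v, Rcr κ c (P v) (ρ v)) → (∀ v, ϱ v * (P v).hh ≤ (P v).ell) → ∀ Y : ℝ,
      (∀ v, K1 * (P v).hh ≤ Y) → (∀ v, 1 ≤ Nq P Y v) → ∀ A : Mq P (Nq P Y) → ℤ,
      (∀ μ, |(A μ : ℝ)| ≤ Real.exp (η / 8 * Y)) →
      (∀ k : Fin m → ℕ, ∑ v, ϱ v * (P v).hh * ((k v / (P v).C.pd.e : ℕ) : ℝ) < (m + η) * Y →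
        Bq P (Dq P Y) (Nq P Y) A (fun v => (P v).i) k = 0) →
      ∀ T ξ : Fin m → ℂ,
      (∀ v, ((((P v).C.pd.q : ℕ) : ℂ) * T v) ^ (P v).C.pd.e * ξ v = 1) →
      (∀ v, ‖ξ v - (P v).x‖ ≤ |((P v).x : ℝ)| / 2) →
      ‖∑ μ : Mo (fun v => hom (P v)) (Nq P Y), (Aw P (Dq P Y) (Nq P Y) A μ : ℂ) *
        ∏ v, (ξ v ^ ((μ v).1 : ℕ) *
        (ξ v * H52.AC.evz (T v) ((hom (P v)).C.pd.x (hom (P v)).i)) ^ ((μ v).2 : ℕ))‖ ≤
        Real.exp (-(η / 2) * Y) := by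
  have hm1 : (1 : ℝ) ≤ m := by exact_mod_cast hm
  have hn1 : (1 : ℝ) ≤ n := by exact_mod_cast hn
  set δ : ℝ := η / (16 * (m + η)) with hδ
  have hmη : (0 : ℝ) < m + η := by linarith
  have hδ0 : 0 < δ := by positivity
  have hδm : δ * (m + η) = η / 16 := by rw [hδ]; field_simp
  have hδ16 : δ ≤ 1 / 16 := by
    rw [hδ, div_le_iff₀ (by positivity)]
    linarith
  set K1 : ℝ := max 1 (8 * m * n * (κ + 1) / η) with hK1
  have hK11 : 1 ≤ K1 := le_max_left _ _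
  have hK12 : 8 * (m : ℝ) * n * (κ + 1) ≤ η * K1 := by
    have h2 : 8 * (m : ℝ) * n * (κ + 1) / η ≤ K1 := le_max_right _ _
    rw [div_le_iff₀ hη] at h2
    linarith
  refine ⟨cR n + ⌈1 / (δ * r0)⌉₊ + (max ⌈(2 * (n.factorial : ℝ) + 1) / δ⌉₊
    ⌈8 * (8 * m + 2 * m * n) / η⌉₊), K1, by omega, hK11, ?_⟩
  obtain ⟨c, hcdef⟩ : ∃ c : ℕ, c = cR n + ⌈1 / (δ * r0)⌉₊ + (max ⌈(2 * (n.factorial : ℝ) + 1) / δ⌉₊
    ⌈8 * (8 * (m : ℝ) + 2 * m * n) / η⌉₊) := ⟨_, rfl⟩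
  rw [← hcdef]
  have hcA : cR n ≤ c := by omega
  have hcr : 1 ≤ δ * r0 * c := by
    have h1 : ⌈1 / (δ * r0)⌉₊ ≤ c := by omega
    have h2 : 1 / (δ * r0) ≤ c := (Nat.le_ceil _).trans (by exact_mod_cast h1)
    rw [div_le_iff₀ (by positivity)] at h2
    linarith
  have hcm : max ⌈(2 * (n.factorial : ℝ) + 1) / δ⌉₊ ⌈8 * (8 * (m : ℝ) + 2 * m * n) / η⌉₊ ≤ c := by
    rw [hcdef]
    exact Nat.le_add_left _ _
  have hc1 : 2 * (n.factorial : ℝ) + 1 ≤ δ * c := by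
    have h1 : ⌈(2 * (n.factorial : ℝ) + 1) / δ⌉₊ ≤ c := (le_max_left _ _).trans hcm
    have h2 : (2 * (n.factorial : ℝ) + 1) / δ ≤ c := (Nat.le_ceil _).trans (by exact_mod_cast h1)
    rw [div_le_iff₀ hδ0] at h2
    linarith
  have hc2 : 8 * (8 * (m : ℝ) + 2 * m * n) ≤ η * c := by
    have h1 : ⌈8 * (8 * (m : ℝ) + 2 * m * n) / η⌉₊ ≤ c := (le_max_right _ _).trans hcm
    have h2 : 8 * (8 * (m : ℝ) + 2 * m * n) / η ≤ c := (Nat.le_ceil _).trans (by exact_mod_cast h1)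
    rw [div_le_iff₀ hη] at h2
    linarith
  have hfac0 : (0 : ℝ) ≤ (n.factorial : ℝ) := Nat.cast_nonneg _
  have hc0 : (0 : ℝ) < c := by
    by_contra hcon
    push Not at hcon
    nlinarith
  intro P ρ hP hϱh Y hYK hN A hA hvan T ξ hT hξ
  have hone := fun v => zer_one hcA (hP v) hδ0 (by linarith) hc1 (T v) (ξ v) (hT v) (hξ v)
  have hell : ∀ v, (c : ℝ) * Real.log (ρ v) ≤ (P v).hh ∧ (c : ℝ) * Real.log 2 ≤ (P v).hh := fun v =>
    ⟨(hP v).ell_ge.1.trans (hP v).ell_le, (hP v).ell_ge.2.trans (hP v).ell_le⟩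
  have hl2 : 0 < Real.log 2 := Real.log_pos (by norm_num)
  have hell0 : ∀ v, 0 < (P v).hh := fun v => lt_of_lt_of_le (by positivity) (hell v).2
  have hY : ∀ v, (P v).hh ≤ Y := fun v =>
    (le_mul_of_one_le_left (hell0 v).le hK11).trans (hYK v)
  have hY0 : 0 < Y := by
    have v0 : Fin m := ⟨0, by omega⟩
    exact (hell0 v0).trans_le (hY v0)
  have hDN : ∀ v, Nq P Y v + (P v).d ≤ Dq P Y v + 1 := by
    intro v
    have h1 := hN v
    unfold Nq at h1 ⊢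
    omega
  rw [val_q P ρ hP hcA (Dq P Y) (Nq P Y) hDN A T ξ hT (fun v => (hone v).2.2.1), norm_mul]
  have hϱ0 : ∀ v, 0 < ϱ v := fun v => hr0.trans_le (hrϱ v)
  have htail := tail_q P ρ hP (Dq P Y) (Nq P Y) A (fun v => ϱ v * (P v).hh)
    (fun v => mul_pos (hϱ0 v) (hell0 v))
    (TT := (m + η) * Y) (Z := Real.exp (η / 8 * Y)) (δ := δ) (by positivity) hδ0 (by linarith)
    hvan hA (fun v => ((om (P v) : ℝ) : ℂ) * T v) (fun v => (hone v).1)
    (fun v => (hone v).2.1.trans (by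
      apply Real.exp_le_exp.mpr
      have h1 := mul_le_mul_of_nonneg_left (hϱh v) (by linarith : (0 : ℝ) ≤ 1 - δ)
      linarith))
    (fun v => by
      have h1 : Real.log 2 ≤ δ * (ϱ v * (P v).hh) := by
        calc Real.log 2 = 1 * Real.log 2 := (one_mul _).symm
          _ ≤ (δ * r0 * c) * Real.log 2 := mul_le_mul_of_nonneg_right hcr hl2.le
          _ = δ * r0 * (c * Real.log 2) := by ring
          _ ≤ δ * r0 * (P v).hh := mul_le_mul_of_nonneg_left (hell v).2 (by positivity)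
          _ ≤ δ * ϱ v * (P v).hh := by
              have := hell0 v
              have := hrϱ v
              gcongr
          _ = δ * (ϱ v * (P v).hh) := by ring
      calc Real.exp (-δ * (ϱ v * (P v).hh)) ≤ Real.exp (-Real.log 2) :=
            Real.exp_le_exp.mpr (by linarith)
        _ = 1 / 2 := by rw [Real.exp_neg, Real.exp_log (by norm_num)]; norm_num)
  -- the four factors
  set y : ℝ := Y / (c * Real.log 2) with hy
  have hyell : ∀ v, Y / (P v).hh ≤ y := fun v =>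
    div_le_div_of_nonneg_left hY0.le (by positivity) (hell v).2
  have hy1 : 1 ≤ y := by
    have v0 : Fin m := ⟨0, by omega⟩
    rw [hy, le_div_iff₀ (by positivity), one_mul]
    exact (hell v0).2.trans (hY v0)
  have hy2 : y ≤ 2 * (Y / c) := by
    have h1 := Real.log_two_gt_d9
    rw [hy, div_le_iff₀ (by positivity)]
    have h2 : 2 * (Y / c) * (c * Real.log 2) = 2 * Real.log 2 * Y := by field_simp
    rw [h2]
    nlinarith
  have hD : ∀ v, ((Dq P Y v : ℕ) : ℝ) ≤ Y / (P v).hh := fun v =>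
    Nat.floor_le (div_nonneg hY0.le (hell0 v).le)
  have hB1 : ‖∏ v, ξ v ^ Dq P Y v‖ ≤ Real.exp (m * Y + m * y) := by
    rw [norm_prod]
    calc ∏ v, ‖ξ v ^ Dq P Y v‖ ≤ ∏ _v : Fin m, Real.exp (Y + y) := by
          refine prod_le_prod (fun v _ => norm_nonneg _) fun v _ => ?_
          rw [norm_pow]
          refine (pow_le_pow_left₀ (norm_nonneg _) (hone v).2.2.2 _).trans ?_
          rw [← Real.exp_nat_mul]
          apply Real.exp_le_exp.mpr
          have h1 : ((Dq P Y v : ℕ) : ℝ) * (P v).hh ≤ Y := by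
            have := mul_le_mul_of_nonneg_right (hD v) (hell0 v).le
            rwa [div_mul_cancel₀ _ (hell0 v).ne'] at this
          have h2 := (hD v).trans (hyell v)
          rw [mul_add, mul_one]
          linarith
      _ = Real.exp (m * Y + m * y) := by
          rw [prod_const, card_univ, Fintype.card_fin, ← Real.exp_nat_mul]
          congr 1
          ring
  have hB2 : ((∏ v, (Nq P Y v * (P v).d) : ℕ) : ℝ) ≤ Real.exp (m * y + m * n) := by
    push_cast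
    calc ∏ v, ((Nq P Y v : ℕ) : ℝ) * ((P v).d : ℝ) ≤ ∏ _v : Fin m, Real.exp (y + n) := by
          refine prod_le_prod (fun v _ => by positivity) fun v _ => ?_
          rw [Real.exp_add]
          apply mul_le_mul _ _ (Nat.cast_nonneg _) (Real.exp_pos _).le
          · have h1 : ((Nq P Y v : ℕ) : ℝ) ≤ ((Dq P Y v : ℕ) : ℝ) := by
              have h2 := hDN v
              have h3 := (P v).C.d1
              exact_mod_cast (by omega : Nq P Y v ≤ Dq P Y v)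
            have h2 := (hD v).trans (hyell v)
            have h3 := Real.add_one_le_exp y
            linarith
          · have h1 : ((P v).d : ℝ) ≤ n := by exact_mod_cast (P v).C.dn
            have h3 := Real.add_one_le_exp (n : ℝ)
            linarith
      _ = Real.exp (m * y + m * n) := by
          rw [prod_const, card_univ, Fintype.card_fin, ← Real.exp_nat_mul]
          congr 1
          ring
  have hc1' : 1 ≤ c := by
    have h1 : 1 ≤ cR n := by unfold cR; omega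
    omega
  have hx1 : ∀ v, (1 : ℝ) ≤ |((P v).x : ℝ)| ^ κ := fun v => one_le_pow₀ (hP v).x1
  have hB3 : (∏ v, (2 * |((P v).x : ℝ)| ^ κ) ^ n) ≤ Real.exp (η / 8 * Y) := by
    calc (∏ v, (2 * |((P v).x : ℝ)| ^ κ) ^ n) ≤
          ∏ _v : Fin m, Real.exp (n * ((κ + 1) * (Y / K1))) := by
          refine prod_le_prod (fun v _ => pow_nonneg (by linarith [hx1 v]) _) fun v _ => ?_
          have h0 : (0 : ℝ) < 2 * |((P v).x : ℝ)| ^ κ := by linarith [hx1 v]
          have h1 : 2 * |((P v).x : ℝ)| ^ κ = Real.exp (Real.log (2 * |((P v).x : ℝ)| ^ κ)) :=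
            (Real.exp_log h0).symm
          rw [h1, ← Real.exp_nat_mul]
          apply Real.exp_le_exp.mpr
          refine mul_le_mul_of_nonneg_left ?_ (Nat.cast_nonneg _)
          refine ((hP v).log_U hc1').trans ?_
          refine mul_le_mul_of_nonneg_left ?_ (by positivity)
          rw [le_div_iff₀ (by linarith), mul_comm]
          exact hYK v
      _ = Real.exp (m * n * (κ + 1) * (Y / K1)) := by
          rw [prod_const, card_univ, Fintype.card_fin, ← Real.exp_nat_mul]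
          congr 1
          ring
      _ ≤ Real.exp (η / 8 * Y) := by
          apply Real.exp_le_exp.mpr
          have hK10 : 0 < K1 := by linarith
          have h1 : (m : ℝ) * n * (κ + 1) ≤ η / 8 * K1 := by linarith
          have h2 := mul_le_mul_of_nonneg_right h1 (div_nonneg hY0.le hK10.le)
          have h3 : η / 8 * K1 * (Y / K1) = η / 8 * Y := by field_simp
          rwa [h3] at h2
  have hB4 : (4 : ℝ) ^ m ≤ Real.exp (2 * m) := by
    have h1 : (4 : ℝ) ≤ Real.exp 2 := by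
      have h2 := Real.add_one_le_exp (1 : ℝ)
      have h3 : Real.exp 2 = Real.exp 1 * Real.exp 1 := by rw [← Real.exp_add]; norm_num
      rw [h3]
      nlinarith
    calc (4 : ℝ) ^ m ≤ Real.exp 2 ^ m := pow_le_pow_left₀ (by norm_num) h1 m
      _ = Real.exp (2 * m) := by rw [← Real.exp_nat_mul]; congr 1; ring
  have hQ0 : 0 ≤ ∏ v, (2 * |((P v).x : ℝ)| ^ κ) ^ n :=
    prod_nonneg fun v _ => pow_nonneg (by linarith [hx1 v]) _
  have hB5 : ((∏ v, (Nq P Y v * (P v).d) : ℕ) : ℝ) * Real.exp (η / 8 * Y) *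
      (∏ v, (2 * |((P v).x : ℝ)| ^ κ) ^ n) * 4 ^ m *
        Real.exp (-(1 - 2 * δ) * ((m + η) * Y)) ≤
      Real.exp (m * y + m * n) * Real.exp (η / 8 * Y) * Real.exp (η / 8 * Y) *
      Real.exp (2 * m) * Real.exp (-(1 - 2 * δ) * ((m + η) * Y)) := by
    gcongr
  refine (mul_le_mul hB1 (htail.trans hB5) (norm_nonneg _) (Real.exp_pos _).le).trans ?_
  rw [← Real.exp_add, ← Real.exp_add, ← Real.exp_add, ← Real.exp_add, ← Real.exp_add]
  apply Real.exp_le_exp.mpr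
  have hw : (8 * (m : ℝ) + 2 * m * n) * (Y / c) ≤ η / 8 * Y := by
    have h1 : (8 * (m : ℝ) + 2 * m * n) ≤ η / 8 * c := by linarith
    have h2 := mul_le_mul_of_nonneg_right h1 (div_nonneg hY0.le hc0.le)
    have h3 : η / 8 * c * (Y / c) = η / 8 * Y := by field_simp
    rwa [h3] at h2
  have e1 : -(1 - 2 * δ) * ((m + η) * Y) = -(m + η) * Y + 2 * (δ * (m + η)) * Y := by ring
  rw [e1, hδm]
  have h5 : (m : ℝ) * y + m * y + m * n + 2 * m ≤ (4 * m + m * n) * y := by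
    have : (0 : ℝ) ≤ (2 * m + m * n) * (y - 1) := mul_nonneg (by positivity) (by linarith)
    nlinarith
  have h6 : (4 * (m : ℝ) + m * n) * y ≤ (4 * m + m * n) * (2 * (Y / c)) :=
    mul_le_mul_of_nonneg_left hy2 (by positivity)
  nlinarith

end Pool.Agent.H98.MQ
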